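import Pool.Agent.P.MP_0ff3a5_nt.Zn.Four

/-! Counting the surviving cells. -/

namespace Pool.Agent.P.MP_0ff3a5_nt.Zn

open Polynomial Finset Filter Topology MeasureTheory Metric Real

/-- all fractional parts lie in the lower half -/
def Sv (ξ x : ℝ) : Prop := ∀ n : ℕ, Int.fract (ξ * x ^ n) ≤ 1 / 2

/-- a surviving orbit with given first two integer parts -/
def Lab (q : ℤ × ℤ) (ξ x : ℝ) : Prop := Sv ξ x ∧ ⌊ξ⌋ = q.1 ∧ ⌊ξ * x⌋ = q.2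

/-- parameters with a surviving orbit in a cell -/
def Z (V : Set ℝ) (q : ℤ × ℤ) : Set ℝ := {x | x ∈ V ∧ ∃ ξ, Lab q ξ x}

variable {x y ξ ξ₀ a b : ℝ} {q : ℤ × ℤ} {V : Set ℝ}

theorem Sv.shift (h : Sv ξ x) (m : ℕ) : Sv (ξ * x ^ m) x := fun n => by
  rw [mul_assoc, ← pow_add]; exact h _

theorem Sv.sin (h : Sv ξ x) (n : ℕ) : 0 ≤ sin (2 * π * (ξ * x ^ n)) := by
  rw [← Int.floor_add_fract (ξ * x ^ n), mul_add, add_comm, mul_comm (2 * π) (_ : ℤ),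
    sin_add_int_mul_two_pi]
  exact sin_nonneg_of_nonneg_of_le_pi (mul_nonneg two_pi_pos.le (Int.fract_nonneg _))
    (by nlinarith [h n, pi_pos])

theorem floor_eq (h1 : Int.fract x ≤ 1 / 2) (h2 : Int.fract y ≤ 1 / 2) (h : |x - y| < 1 / 2) :
    ⌊x⌋ = ⌊y⌋ := by
  have a1 := Int.floor_add_fract x
  have a2 := Int.floor_add_fract y
  have a3 := Int.fract_nonneg x
  have a4 := Int.fract_nonneg y
  have a5 := abs_lt.1 h
  have b1 : (⌊x⌋ : ℝ) < (⌊y⌋ + 1 : ℤ) := by push_cast; linarith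
  have b2 : (⌊y⌋ : ℝ) < (⌊x⌋ + 1 : ℤ) := by push_cast; linarith
  rw [Int.cast_lt] at b1 b2
  omega

theorem lin (x0 : 0 ≤ x) (x2 : x ≤ 2) (y0 : 0 ≤ y) (y2 : y ≤ 2) (n : ℕ) :
    |y ^ n - x ^ n - n * x ^ (n - 1) * (y - x)| ≤ 4 ^ n * (y - x) ^ 2 := by
  induction n with
  | zero => simp; positivity
  | succ n ih =>
    have e : y ^ (n + 1) - x ^ (n + 1) - (n + 1 : ℕ) * x ^ (n + 1 - 1) * (y - x) =
        y * (y ^ n - x ^ n - n * x ^ (n - 1) * (y - x)) + n * x ^ (n - 1) * (y - x) ^ 2 := by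
      cases n <;> simp <;> ring
    have h1 : (n : ℝ) * x ^ (n - 1) ≤ 2 ^ n * 2 ^ n :=
      mul_le_mul (by exact_mod_cast n.lt_two_pow_self.le) ((pow_le_pow_left₀ x0 x2 _).trans
        (pow_le_pow_right₀ one_le_two n.pred_le)) (by positivity) (by positivity)
    rw [← mul_pow, show (2 * 2 : ℝ) = 4 by norm_num] at h1
    rw [e]
    refine (abs_add_le _ _).trans ?_
    rw [abs_mul, abs_of_nonneg y0, abs_of_nonneg (a := _ * _ * _ ^ 2) (by positivity), pow_succ 4]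
    have h2 : 0 ≤ 4 ^ n * (y - x) ^ 2 := by positivity
    nlinarith [mul_le_mul y2 ih (abs_nonneg _) two_pos.le,
      mul_le_mul_of_nonneg_right h1 (sq_nonneg (y - x))]

theorem Lab.close (h : Lab q ξ y) (h0 : Lab q ξ₀ x) (x0 : 0 ≤ x) (x2 : x ≤ 2) :
    |ξ - ξ₀| ≤ 1 ∧ |ξ * (y - x)| ≤ 3 := by
  have a1 := Int.abs_sub_lt_one_of_floor_eq_floor (h.2.1.trans h0.2.1.symm)
  have a2 := Int.abs_sub_lt_one_of_floor_eq_floor (h.2.2.trans h0.2.2.symm)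
  refine ⟨a1.le, ?_⟩
  rw [show ξ * (y - x) = ξ * y - ξ₀ * x - (ξ - ξ₀) * x by ring]
  refine (abs_sub _ _).trans ?_
  rw [abs_mul, abs_of_nonneg x0]
  nlinarith [abs_nonneg (ξ - ξ₀)]

theorem Lab.le (h : Lab q ξ y) : (q.1 : ℝ) ≤ ξ := h.2.1 ▸ Int.floor_le ξ

theorem Z_le (hV : ∀ x ∈ V, 0 ≤ x ∧ x ≤ 2) (hq : (0 : ℝ) < q.1) :
    volume (Z V q) ≤ ENNReal.ofReal (6 / q.1) := by
  rcases (Z V q).eq_empty_or_nonempty with h | ⟨x, hx, ξ₀, h0⟩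
  · simp [h]
  rw [show (6 : ℝ) / q.1 = 2 * (3 / q.1) by ring, ← Real.volume_closedBall x]
  refine measure_mono fun y ⟨_, ξ, h⟩ => ?_
  have h1 := (h.close h0 (hV x hx).1 (hV x hx).2).2
  rw [abs_mul, abs_of_pos (hq.trans_le h.le)] at h1
  rw [mem_closedBall, Real.dist_eq, le_div_iff₀ hq]
  nlinarith [h.le, abs_nonneg (y - x)]

theorem Z_step (hV : ∀ x ∈ V, a ≤ x ∧ x ≤ b) (ha : 1 ≤ a) (hb : b ≤ 2) {c τ Λ K Q : ℝ} {L : ℕ}
    (hc : ∀ (z : ℝ × ℝ) (τ : ℝ), |z.1| ≤ 3 → |z.2| ≤ 3 → 0 ≤ τ → τ ≤ 1 →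
      ENNReal.ofReal ((c * τ) ^ 2) ≤ ν (closedBall z τ)) (c0 : 0 < c) (t0 : 0 < τ)
    (t1 : τ * ((L + 2) * b ^ (L + 1)) ≤ 1 / 21000) (hQ : 189000 * 4 ^ (L + 1) ≤ Q)
    (hΛ : ∀ x ∈ V, ∀ ξ, ν.real {z | ∀ i < L, -(1 / 1000) ≤ cos (lam ξ x z (X ^ i))} ≤ Λ)
    (h4 : 4 * Λ ≤ a ^ L * (c * τ) ^ 2) (K0 : 0 ≤ K)
    (ih : ∀ q : ℤ × ℤ, Q ≤ q.1 → volume (Z V q) ≤ ENNReal.ofReal (K / q.1)) (hq : Q ≤ q.1) :
    volume (Z V q) ≤ ENNReal.ofReal (K / 2 / q.1) := by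
  rcases (Z V q).eq_empty_or_nonempty with h | ⟨x, hx, ξ₀, h0⟩
  · simp [h]
  have Q2 : 2 ≤ Q := by nlinarith [one_le_pow₀ (n := L + 1) (by norm_num : (1 : ℝ) ≤ 4)]
  have aL : 1 ≤ a ^ L := one_le_pow₀ ha
  have x1 : 1 ≤ x := ha.trans (hV x hx).1
  have b1 : 1 ≤ b := x1.trans (hV x hx).2
  have q0 : (0 : ℝ) < q.1 := by linarith
  set Wt : ℤ × ℤ → ℝ → ℝ → Prop := fun q' ξ y => y ∈ V ∧ Lab q ξ y ∧ Lab q' (ξ * y ^ L) y with hW
  set Sq : ℤ × ℤ → Set (ℝ × ℝ) := fun q' => ⋃ (ξ) (y) (_ : Wt q' ξ y), ⋂ n ∈ range (L + 2),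
    {z | |(ξ₀ + z.1) * x ^ n + z.2 * (n * x ^ (n - 1)) - ξ * y ^ n| < 1 / 7000} with hS
  have mS : ∀ q' z, z ∈ Sq q' ↔ ∃ ξ y, Wt q' ξ y ∧ ∀ n < L + 2,
      |(ξ₀ + z.1) * x ^ n + z.2 * (n * x ^ (n - 1)) - ξ * y ^ n| < 1 / 7000 := by
    intro q' z
    simp only [hS, Set.mem_iUnion, Set.mem_iInter, mem_range, Set.mem_ofPred_eq, exists_prop]
  have s1 : ∀ q', MeasurableSet (Sq q') := fun q' => IsOpen.measurableSet <|
    isOpen_iUnion fun _ => isOpen_iUnion fun _ => isOpen_iUnion fun _ =>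
      isOpen_biInter_finset fun _ _ => isOpen_lt (by fun_prop) continuous_const
  have s2 : Pairwise (Function.onFun Disjoint Sq) := fun q₁ q₂ hne => Set.disjoint_left.2 <| by
    intro z h1 h2
    obtain ⟨ξ₁, y₁, w1, h1⟩ := (mS _ _).1 h1
    obtain ⟨ξ₂, y₂, w2, h2⟩ := (mS _ _).1 h2
    have : ∀ n < L + 2, ⌊ξ₁ * y₁ ^ n⌋ = ⌊ξ₂ * y₂ ^ n⌋ := fun n hn =>
      floor_eq (w1.2.1.1 n) (w2.2.1.1 n) (by
        have := abs_lt.1 (h1 n hn)
        have := abs_lt.1 (h2 n hn)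
        rw [abs_lt]; constructor <;> linarith)
    refine hne (Prod.ext ?_ ?_)
    · rw [← w1.2.2.2.1, ← w2.2.2.2.1, this L (by omega)]
    · rw [← w1.2.2.2.2, ← w2.2.2.2.2, mul_assoc, mul_assoc, ← pow_succ, ← pow_succ,
        this (L + 1) (by omega)]
  have s3 : ν (⋃ q', Sq q') ≤ ENNReal.ofReal Λ := by
    refine le_trans (measure_mono fun z hz => ?_)
      ((ENNReal.le_ofReal_iff_toReal_le (measure_ne_top _ _) (measureReal_nonneg.trans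
        (hΛ x hx ξ₀))).2 (hΛ x hx ξ₀))
    obtain ⟨q', hz⟩ := Set.mem_iUnion.1 hz
    obtain ⟨ξ, y, w, h⟩ := (mS _ _).1 hz
    intro i hi
    rw [cos_lam]
    have h1 := abs_sin_sub_sin_le (2 * π * ((ξ₀ + z.1) * x ^ i + z.2 * (i * x ^ (i - 1))))
      (2 * π * (ξ * y ^ i))
    rw [← mul_sub, abs_mul, abs_of_pos two_pi_pos] at h1
    nlinarith [w.2.1.1.sin i, (abs_le.1 h1).1, h i (by omega), pi_pos, pi_lt_d2,
      abs_nonneg ((ξ₀ + z.1) * x ^ i + z.2 * (i * x ^ (i - 1)) - ξ * y ^ i)]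
  have s4 : ∀ q', volume {y | ∃ ξ, Wt q' ξ y} ≤
      ENNReal.ofReal (2 * K / (q.1 * a ^ L * (c * τ) ^ 2)) * ν (Sq q') := by
    intro q'
    rcases {y | ∃ ξ, Wt q' ξ y}.eq_empty_or_nonempty with h | ⟨y, ξ, w⟩
    · rw [h]; simp
    have y1 := hV y w.1
    have ξ1 := w.2.1.le
    have ξ0 : 0 < ξ := by linarith
    have h1 : q.1 * a ^ L ≤ ξ * y ^ L := by gcongr; exact y1.1
    have h2 : ξ * y ^ L < q'.1 + 1 := w.2.2.2.1 ▸ Int.lt_floor_add_one _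
    have h3 : q.1 ≤ q'.1 := by
      have : (q.1 : ℝ) < (q'.1 + 1 : ℤ) := by push_cast; nlinarith
      rw [Int.cast_lt] at this
      omega
    have h5 : (q.1 : ℝ) ≤ q'.1 := by exact_mod_cast h3
    obtain ⟨c1, c2⟩ := w.2.1.close h0 (by linarith) ((hV x hx).2.trans hb)
    have h6 : closedBall (ξ - ξ₀, ξ * (y - x)) τ ⊆ Sq q' := fun z hz => by
      refine (mS _ _).2 ⟨ξ, y, w, fun n hn => ?_⟩
      rw [← closedBall_prod_same] at hz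
      have z1 : |z.1 - (ξ - ξ₀)| ≤ τ := hz.1
      have z2 : |z.2 - ξ * (y - x)| ≤ τ := hz.2
      have l1 := lin (by linarith) ((hV x hx).2.trans hb) (by linarith [y1.1]) (y1.2.trans hb) n
      have l2 : ∀ m ≤ L + 1, x ^ m ≤ b ^ (L + 1) := fun m hm =>
        (pow_le_pow_left₀ (by linarith) (hV x hx).2 m).trans (pow_le_pow_right₀ b1 hm)
      have l3 : (n : ℝ) * x ^ (n - 1) ≤ (L + 1) * b ^ (L + 1) :=
        mul_le_mul (by exact_mod_cast (by omega : n ≤ L + 1)) (l2 _ (by omega)) (by positivity)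
          (by positivity)
      have l4 : ξ * (4 ^ n * (y - x) ^ 2) ≤ 1 / 21000 := by
        have e1 : (ξ * (y - x)) ^ 2 ≤ 3 ^ 2 := by
          rw [← sq_abs]; exact pow_le_pow_left₀ (abs_nonneg _) c2 2
        have e2 : (4 : ℝ) ^ n ≤ 4 ^ (L + 1) := pow_le_pow_right₀ (by norm_num) (by omega)
        refine le_of_mul_le_mul_left ?_ ξ0
        nlinarith [mul_le_mul e2 e1 (sq_nonneg _) (by positivity)]
      rw [show (ξ₀ + z.1) * x ^ n + z.2 * (n * x ^ (n - 1)) - ξ * y ^ n =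
        (z.1 - (ξ - ξ₀)) * x ^ n + (z.2 - ξ * (y - x)) * (n * x ^ (n - 1)) +
          -ξ * (y ^ n - x ^ n - n * x ^ (n - 1) * (y - x)) by ring]
      refine (abs_add_three _ _ _).trans_lt ?_
      rw [abs_mul, abs_mul, abs_mul (-ξ), abs_neg, abs_of_pos ξ0, abs_of_nonneg (a := x ^ n)
        (by positivity), abs_of_nonneg (a := _ * x ^ _) (by positivity)]
      linarith [mul_le_mul z1 (l2 n (by omega)) (by positivity) t0.le,
        mul_le_mul z2 l3 (by positivity) t0.le, mul_le_mul_of_nonneg_left l1 ξ0.le]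
    have t2 : τ ≤ 1 := by
      have : (1 : ℝ) ≤ (L + 2) * b ^ (L + 1) := one_le_mul_of_one_le_of_one_le
        (by linarith [(L.cast_nonneg : (0 : ℝ) ≤ L)]) (one_le_pow₀ b1)
      nlinarith
    calc _ ≤ volume (Z V q') := measure_mono fun y hy => hy.elim fun ξ w => ⟨w.1, _, w.2.2⟩
      _ ≤ ENNReal.ofReal (K / q'.1) := ih q' (by linarith)
      _ ≤ ENNReal.ofReal (2 * K / (q.1 * a ^ L * (c * τ) ^ 2) * (c * τ) ^ 2) := by
        refine ENNReal.ofReal_le_ofReal ?_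
        rw [show 2 * K / (q.1 * a ^ L * (c * τ) ^ 2) * (c * τ) ^ 2 = K / (q.1 * a ^ L / 2) by
          field_simp]
        exact div_le_div_of_nonneg_left K0 (by positivity) (by linarith)
      _ ≤ _ := by
        rw [ENNReal.ofReal_mul (by positivity)]
        gcongr
        exact (hc _ τ (c1.trans (by norm_num)) c2 t0.le t2).trans (measure_mono h6)
  calc volume (Z V q) ≤ volume (⋃ q', {y | ∃ ξ, Wt q' ξ y}) := measure_mono fun y ⟨y1, ξ, w⟩ =>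
        Set.mem_iUnion.2 ⟨(⌊ξ * y ^ L⌋, ⌊ξ * y ^ L * y⌋), ξ, y1, w, w.1.shift L, rfl, rfl⟩
    _ ≤ ∑' q', ENNReal.ofReal (2 * K / (q.1 * a ^ L * (c * τ) ^ 2)) * ν (Sq q') :=
        (measure_iUnion_le _).trans (ENNReal.tsum_le_tsum s4)
    _ ≤ ENNReal.ofReal (2 * K / (q.1 * a ^ L * (c * τ) ^ 2)) * ENNReal.ofReal Λ := by
        rw [ENNReal.tsum_mul_left, ← measure_iUnion s2 s1]
        gcongr
    _ ≤ _ := by
        rw [← ENNReal.ofReal_mul (by positivity)]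
        refine ENNReal.ofReal_le_ofReal ?_
        rw [div_mul_eq_mul_div, div_le_div_iff₀ (by positivity) q0]
        nlinarith [mul_le_mul_of_nonneg_left h4 (mul_nonneg K0 q0.le)]

theorem null_of_step (hV : ∀ x ∈ V, 1 < x ∧ x ≤ 2) {Q : ℝ} (hQ : 0 < Q)
    (h : ∀ K, 0 ≤ K → (∀ q : ℤ × ℤ, Q ≤ q.1 → volume (Z V q) ≤ ENNReal.ofReal (K / q.1)) →
      ∀ q : ℤ × ℤ, Q ≤ q.1 → volume (Z V q) ≤ ENNReal.ofReal (K / 2 / q.1)) :
    volume {x | x ∈ V ∧ ∃ ξ, 0 < ξ ∧ Sv ξ x} = 0 := by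
  have h1 : ∀ n : ℕ, ∀ q : ℤ × ℤ, Q ≤ q.1 →
      volume (Z V q) ≤ ENNReal.ofReal (6 * (1 / 2) ^ n / q.1) := by
    intro n
    induction n with
    | zero =>
      intro q hq
      simpa using Z_le (fun x hx => ⟨by linarith [(hV x hx).1], (hV x hx).2⟩) (hQ.trans_le hq)
    | succ n ih => exact fun q hq => (h _ (by positivity) ih q hq).trans_eq (by congr 1; ring)
  have h2 := ((tendsto_pow_atTop_nhds_zero_of_lt_one one_half_pos.le one_half_lt_one).const_mul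
    (6 : ℝ))
  refine measure_mono_null (t := ⋃ q : {q : ℤ × ℤ // Q ≤ q.1}, Z V q) ?_
    (measure_iUnion_null fun q => ?_)
  · rintro x ⟨x1, ξ, ξ0, hs⟩
    obtain ⟨m, hm⟩ := pow_unbounded_of_one_lt ((Q + 1) / ξ) (hV x x1).1
    rw [div_lt_iff₀' ξ0] at hm
    exact Set.mem_iUnion.2 ⟨⟨(⌊ξ * x ^ m⌋, ⌊ξ * x ^ m * x⌋),
      by linarith [Int.lt_floor_add_one (ξ * x ^ m)]⟩, x1, _, hs.shift m, rfl, rfl⟩
  · have := ge_of_tendsto' (ENNReal.tendsto_ofReal (h2.div_const (q.1.1 : ℝ))) fun n => h1 n q q.2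
    simpa using this

namespace Sys

variable {D : Type} [Fintype D] (s : Sys D)

theorem count (h : s.Maj) (hV : ∀ x ∈ V, s.a ≤ x ∧ x ≤ b) (b1 : 1 ≤ b) (hb : b ≤ 2) {C θ : ℝ}
    (t0 : 0 < θ) (hC : 0 ≤ C) (hW : ∀ x ∈ V, ∀ N, s.W 2 N x ≤ C * θ ^ N)
    (ht : θ * (b ^ s.r) ^ 2 < s.a ^ s.r) : volume {x | x ∈ V ∧ ∃ ξ, 0 < ξ ∧ Sv ξ x} = 0 := by
  obtain ⟨c, c0, hc⟩ := gauss_ball
  have a0 : 0 < s.a := by linarith [s.ha]
  obtain ⟨R, hR⟩ := exists_nat_ge (s.A / θ)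
  have hR' : s.A * exp (-R) ≤ θ := by
    rw [exp_neg, ← div_eq_mul_inv, div_le_comm₀ (exp_pos _) t0]
    linarith [add_one_le_exp (R : ℝ)]
  have h1 := (tendsto_pow_const_mul_const_pow_of_abs_lt_one 4 (r := θ * (b ^ s.r) ^ 2 / s.a ^ s.r)
    (by rw [abs_of_pos (by positivity), div_lt_one (by positivity)]; exact ht)).const_mul
    (4 * ((2 * R + 3) ^ 2 * C + 1) * (21000 * (s.r + 2) * 2) ^ 2)
  rw [mul_zero] at h1
  obtain ⟨N, N1, h2⟩ := ((eventually_ge_atTop 1).and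
    (h1.eventually (gt_mem_nhds (pow_pos c0 2)))).exists
  have N2 : (1 : ℝ) ≤ N := by exact_mod_cast N1
  refine null_of_step (fun x hx => ⟨s.ha.trans_le (hV x hx).1, (hV x hx).2.trans hb⟩)
    (Q := 189000 * 4 ^ (s.r * N + 1)) (by positivity) fun K K0 ih q hq => Z_step hV s.ha.le hb hc c0
      (τ := (21000 * (((s.r * N : ℕ) + 2) * b ^ (s.r * N + 1)))⁻¹) (by positivity)
      (le_of_eq (by field_simp)) le_rfl (Λ := ((2 * R + 3) ^ 2 * C + 1) * N ^ 2 * θ ^ N)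
      (fun x hx ξ => (s.fourier h N (R * N) ξ x).trans ?_) ?_ K0 ih hq
  · have e1 : s.A ^ N * exp (-(R * N : ℕ)) ≤ N ^ 2 * θ ^ N := by
      rw [Nat.cast_mul, ← neg_mul, mul_comm _ (N : ℝ), exp_nat_mul, ← mul_pow]
      refine (pow_le_pow_left₀ (mul_nonneg s.A0 (exp_pos _).le) hR' N).trans ?_
      exact le_mul_of_one_le_left (by positivity) (one_le_pow₀ N2)
    have e2 : (2 * (R * N : ℕ) + 3 : ℝ) ^ 2 * s.W 2 N x ≤ ((2 * R + 3) * N) ^ 2 * (C * θ ^ N) :=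
      mul_le_mul (pow_le_pow_left₀ (by positivity) (by push_cast; linarith) 2) (hW x hx N) s.W0
        (by positivity)
    linarith
  · rw [mul_pow c, inv_pow, ← div_eq_mul_inv, ← mul_div_assoc, le_div_iff₀ (by positivity)]
    rw [div_pow, ← mul_div_assoc, ← mul_div_assoc, div_lt_iff₀ (by positivity)] at h2
    have e1 : (21000 * (((s.r * N : ℕ) + 2) * b ^ (s.r * N + 1)) : ℝ) ≤
        21000 * (((s.r + 2) * N) * ((b ^ s.r) ^ N * 2)) := by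
      rw [pow_succ, pow_mul]
      gcongr
      push_cast
      linarith
    refine (mul_le_mul_of_nonneg_left (pow_le_pow_left₀ (by positivity) e1 2)
      (by positivity)).trans (le_trans (le_of_eq ?_) (h2.le.trans_eq (by ring)))
    ring

/-- no surviving orbit at almost every parameter of a short interval -/
theorem null (h : s.Maj) {b₀ : ℝ} (b1 : 1 ≤ b) (hb : b ≤ 2) (h0 : b₀ < b) (hab : b ^ 2 ≤ s.a ^ 3)
    (h1 : s.A * (b ^ s.r) ^ 2 < (s.a ^ s.r) ^ 3) (h2 : s.m₀ * (b ^ s.r) ^ 2 < s.a ^ s.r) :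
    volume {x | x ∈ Set.Ioo s.a b₀ ∧ ∃ ξ, 0 < ξ ∧ Sv ξ x} = 0 := by
  have a0 : 0 < s.a := by linarith [s.ha]
  obtain ⟨θ, t1, t2⟩ := exists_between (a₁ := max (s.A / (s.a ^ s.r) ^ 2) s.m₀)
    (a₂ := s.a ^ s.r / (b ^ s.r) ^ 2) (max_lt (by
      rw [div_lt_div_iff₀ (by positivity) (by positivity)]; linarith)
      ((lt_div_iff₀ (by positivity)).2 h2))
  rw [lt_div_iff₀ (by positivity)] at t2
  obtain ⟨t0, hg⟩ := s.good_two b1 h0 hab (lt_of_le_of_lt (le_max_left _ _) t1)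
    (lt_of_le_of_lt (le_max_right _ _) t1)
  have : volume {x | (x ∈ Set.Ioo s.a b₀ ∧ ∃ ξ, 0 < ξ ∧ Sv ξ x) ∧ s.Good 2 θ x} = 0 := by
    refine measure_null_of_locally_null _ fun x ⟨⟨x0, _⟩, x1⟩ => ?_
    obtain ⟨C, c1, d1⟩ := x1.unif s t0 x0.1
    refine ⟨_, ?_, s.count (V := {y | y ∈ Set.Ioo s.a b₀ ∧ ∀ N, s.W 2 N y ≤ C * θ ^ N}) h
      (fun y hy => ⟨hy.1.1.le, (hy.1.2.trans h0).le⟩) b1 hb t0 c1 (fun y hy => hy.2) t2⟩
    filter_upwards [self_mem_nhdsWithin, mem_nhdsWithin_of_mem_nhds d1] with y y1 y2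
    exact ⟨⟨y1.1.1, y2⟩, y1.1.2⟩
  refine measure_eq_zero_iff_ae_notMem.2 ?_
  filter_upwards [hg, measure_eq_zero_iff_ae_notMem.1 this] with x x1 x2 x3
  exact x2 ⟨x3, x1 x3.1⟩

end Sys

end Pool.Agent.P.MP_0ff3a5_nt.Zn
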