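import Pool.Agent.P.MP_0ff3a5_nt.Zn.Step

/-! The Gaussian measure of the surviving part of a linearised cell. -/

namespace Pool.Agent.P.MP_0ff3a5_nt.Zn

open Polynomial Finset Filter Topology MeasureTheory Metric ProbabilityTheory Real

/-- the standard Gaussian measure of the plane -/
noncomputable abbrev ν : Measure (ℝ × ℝ) := (gaussianReal 0 1).prod (gaussianReal 0 1)

theorem cos_integrable (t A B : ℝ) : Integrable (fun z : ℝ × ℝ => cos (t + z.1 * A + z.2 * B)) ν :=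
  .of_bound (by fun_prop) 1 (.of_forall fun _ => abs_cos_le_one _)

theorem gauss (t A B : ℝ) :
    |∫ z, cos (t + z.1 * A + z.2 * B) ∂ν| ≤ exp (-(A ^ 2 + B ^ 2) / 2) := by
  have h1 : ∫ z : ℝ × ℝ, Complex.exp ((t + z.1 * A + z.2 * B : ℝ) * Complex.I) ∂ν =
      Complex.exp (t * Complex.I) * (charFun (gaussianReal 0 1) A * charFun (gaussianReal 0 1) B) := by
    rw [charFun_apply_real, charFun_apply_real, ← integral_prod_mul, ← integral_const_mul]
    refine integral_congr_ae (.of_forall fun z => ?_)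
    simp only [← Complex.exp_add]
    congr 1
    push_cast
    ring
  have h2 := integral_re (μ := ν) (f := fun z : ℝ × ℝ =>
    Complex.exp ((t + z.1 * A + z.2 * B : ℝ) * Complex.I))
    (.of_bound (by fun_prop) 1 (.of_forall fun _ => (Complex.norm_exp_ofReal_mul_I _).le))
  simp only [RCLike.re_to_complex, Complex.exp_ofReal_mul_I_re] at h2
  rw [h2, h1]
  refine (Complex.abs_re_le_norm _).trans_eq ?_
  rw [norm_mul, Complex.norm_exp_ofReal_mul_I, one_mul, charFun_gaussianReal, charFun_gaussianReal,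
    ← Complex.exp_add, Complex.norm_exp]
  congr 1
  simp [← Complex.ofReal_pow]
  ring

theorem gauss_ball : ∃ c : ℝ, 0 < c ∧ ∀ (z : ℝ × ℝ) (τ : ℝ), |z.1| ≤ 3 → |z.2| ≤ 3 → 0 ≤ τ → τ ≤ 1 →
    ENNReal.ofReal ((c * τ) ^ 2) ≤ ν (closedBall z τ) := by
  have c0 := gaussianPDFReal_pos 0 1 4 one_ne_zero
  have h : ∀ x τ : ℝ, |x| ≤ 3 → τ ≤ 1 → ENNReal.ofReal (gaussianPDFReal 0 1 4 * 2 * τ) ≤
      gaussianReal 0 1 (closedBall x τ) := by
    intro x τ hx h1
    rw [gaussianReal_apply 0 one_ne_zero, mul_assoc, ENNReal.ofReal_mul c0.le,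
      ← Real.volume_closedBall x, ← setLIntegral_const]
    refine setLIntegral_mono' measurableSet_closedBall fun y hy => ENNReal.ofReal_le_ofReal ?_
    have h2 : |y - x| ≤ τ := hy
    have h3 : |y| ≤ 4 := by linarith [abs_sub_abs_le_abs_sub y x]
    unfold gaussianPDFReal
    refine mul_le_mul_of_nonneg_left (exp_le_exp.2 ?_) (by positivity)
    have := abs_le.1 h3
    simp only [sub_zero, NNReal.coe_one]
    nlinarith
  refine ⟨gaussianPDFReal 0 1 4 * 2, by positivity, fun z τ h1 h2 h3 h4 => ?_⟩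
  rw [← closedBall_prod_same, Measure.prod_prod, sq, ENNReal.ofReal_mul (by positivity)]
  exact mul_le_mul' (h _ _ h1 h4) (h _ _ h2 h4)

theorem normsq {ι : Type} [Fintype ι] (c t : ι → ℝ) :
    ‖∑ g, (c g : ℂ) * Complex.exp (t g * Complex.I)‖ ^ 2 =
      ∑ g, ∑ g', c g * c g' * cos (t g - t g') := by
  simp only [Complex.sq_norm, Complex.normSq_apply, Complex.re_sum, Complex.im_sum,
    Complex.re_ofReal_mul, Complex.im_ofReal_mul, Complex.exp_ofReal_mul_I_re,
    Complex.exp_ofReal_mul_I_im, sum_mul_sum, ← sum_add_distrib, cos_sub]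
  exact sum_congr rfl fun _ _ => sum_congr rfl fun _ _ => by ring

/-- the linearised angles in a cell -/
noncomputable def lam (ξ x : ℝ) (z : ℝ × ℝ) : ℝ[X] →ₗ[ℝ] ℝ :=
  (2 * π * (ξ + z.1)) • leval x + (2 * π * z.2) • (leval x ∘ₗ derivative) - (π / 2) • leval 1

theorem lam_apply (ξ x : ℝ) (z : ℝ × ℝ) (P : ℝ[X]) : lam ξ x z P = (2 * π * ξ * P.eval x -
    π / 2 * P.eval 1) + z.1 * (2 * π * jt 0 P x) + z.2 * (2 * π * jt 1 P x) := by
  simp [lam, jt_zero, jt_one]
  ring

theorem cos_lam (ξ x : ℝ) (z : ℝ × ℝ) (n : ℕ) : cos (lam ξ x z (X ^ n)) =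
    sin (2 * π * ((ξ + z.1) * x ^ n + z.2 * (n * x ^ (n - 1)))) := by
  rw [← cos_sub_pi_div_two]
  congr 1
  simp [lam, derivative_X_pow]
  ring

namespace Sys

variable {D : Type} [Fintype D] (s : Sys D)

/-- the trigonometric polynomial of the system is large when all angles lie in a half circle -/
def Maj : Prop := ∀ f : ℝ[X] →ₗ[ℝ] ℝ, (∀ i < s.r, -(1 / 1000) ≤ cos (f (X ^ i))) →
  1 ≤ ‖∑ d, (s.c d : ℂ) * Complex.exp (f (s.p d) * Complex.I)‖

theorem Maj.pow (h : s.Maj) (N : ℕ) (f : ℝ[X] →ₗ[ℝ] ℝ)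
    (hf : ∀ i < s.r * N, -(1 / 1000) ≤ cos (f (X ^ i))) :
    1 ≤ ∑ g : Fin N → D, ∑ g' : Fin N → D, (∏ i, s.c (g i)) * (∏ i, s.c (g' i)) *
      cos (f (s.pl g - s.pl g')) := by
  simp only [map_sub]
  rw [← normsq]
  refine one_le_pow₀ ?_
  have e : ∀ g : Fin N → D, ((∏ i, s.c (g i) : ℝ) : ℂ) * Complex.exp (f (s.pl g) * Complex.I) =
      ∏ i : Fin N, ((s.c (g i) : ℂ) *
        Complex.exp (f (X ^ (s.r * i) * s.p (g i)) * Complex.I)) := by
    intro g
    rw [prod_mul_distrib, ← Complex.exp_sum, pl, map_sum, ← sum_mul]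
    push_cast
    rfl
  simp only [e]
  rw [← Fintype.piFinset_univ, ← prod_univ_sum (fun _ => univ) fun (i : Fin N) d =>
    (s.c d : ℂ) * Complex.exp (f (X ^ (s.r * i) * s.p d) * Complex.I), norm_prod]
  refine Finset.one_le_prod fun i _ => h (f ∘ₗ LinearMap.mulLeft ℝ (X ^ (s.r * i))) fun j hj => ?_
  rw [LinearMap.comp_apply, LinearMap.mulLeft_apply, ← pow_add]
  exact hf _ (by nlinarith [i.2])

theorem fourier (h : s.Maj) (N R : ℕ) (ξ x : ℝ) :
    ν.real {z | ∀ i < s.r * N, -(1 / 1000) ≤ cos (lam ξ x z (X ^ i))} ≤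
      (2 * R + 3) ^ 2 * s.W 2 N x + s.A ^ N * exp (-R) := by
  have i1 : ∀ (y : ℝ) (P : ℝ[X]), Integrable (fun z => y * cos (lam ξ x z P)) ν := fun y P => by
    simp only [lam_apply ξ x _ P]
    exact (cos_integrable _ _ _).const_mul _
  have h1 := mul_meas_ge_le_integral_of_nonneg (μ := ν) (f := fun z => ∑ g : Fin N → D,
    ∑ g' : Fin N → D, (∏ i, s.c (g i)) * (∏ i, s.c (g' i)) * cos (lam ξ x z (s.pl g - s.pl g')))
    (.of_forall fun z => by
      simp only [map_sub]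
      rw [← normsq]
      exact sq_nonneg _)
    (integrable_finsetSum _ fun _ _ => integrable_finsetSum _ fun _ _ => i1 _ _) 1
  rw [one_mul, integral_finsetSum _ fun _ _ => integrable_finsetSum _ fun _ _ => i1 _ _] at h1
  refine ((measureReal_mono fun z hz => h.pow s N _ hz).trans h1).trans (le_trans (b := s.E N
    fun P => exp (-((2 * π * jt 0 P x) ^ 2 + (2 * π * jt 1 P x) ^ 2) / 2)) ?_ ?_)
  · refine sum_le_sum fun g _ => ?_
    rw [integral_finsetSum _ fun _ _ => i1 _ _]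
    refine sum_le_sum fun g' _ => (le_abs_self _).trans ?_
    rw [integral_const_mul, abs_mul, abs_mul, abs_prod, abs_prod]
    simp only [lam_apply ξ x _ (s.pl g - s.pl g')]
    exact mul_le_mul_of_nonneg_left (gauss _ _ _) (mul_nonneg (s.w_nonneg g) (s.w_nonneg g'))
  · refine le_trans ?_ (add_le_add_left (s.E_offset (N := N) (k := 2) (x := x) R 0) _)
    rw [← E_const, ← E_add]
    refine s.E_mono fun P _ => ?_
    by_cases h2 : Near s.κ (R * s.B) 2 (P + 0) x
    · rw [ind_pos h2]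
      refine (exp_le_one_iff.2 ?_).trans (le_add_of_nonneg_right (exp_pos _).le)
      linarith [sq_nonneg (2 * π * jt 0 P x), sq_nonneg (2 * π * jt 1 P x)]
    · rw [ind_neg h2, zero_add, exp_le_exp]
      simp only [Near, add_zero, not_forall, not_le] at h2
      obtain ⟨l, hl, h3⟩ := h2
      have h4 : (R : ℝ) ≤ |jt l P x| := by nlinarith [s.Bκ1 l, (R.cast_nonneg : (0 : ℝ) ≤ R)]
      have h5 : (R : ℝ) ≤ R ^ 2 := by exact_mod_cast Nat.le_self_pow two_ne_zero R
      have h6 := pow_le_pow_left₀ R.cast_nonneg h4 2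
      have h7 : 2 * (R : ℝ) ≤ (2 * π * jt l P x) ^ 2 := by
        rw [sq_abs] at h6
        rw [mul_pow]
        nlinarith [mul_nonneg (by nlinarith [pi_gt_three] : 0 ≤ (2 * π) ^ 2 - 2)
          (sq_nonneg (jt l P x))]
      interval_cases l <;>
        linarith [sq_nonneg (2 * π * jt 0 P x), sq_nonneg (2 * π * jt 1 P x)]

end Sys

end Pool.Agent.P.MP_0ff3a5_nt.Zn
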