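import Mathlib

/-! Jets of real polynomials with bounded coefficients. -/

namespace Pool.Agent.P.MP_0ff3a5_nt.Zn

open Polynomial Finset

/-- the Taylor coefficient of order `l` at `x` -/
noncomputable def jt (l : ℕ) (P : ℝ[X]) (x : ℝ) : ℝ := (hasseDeriv l P).eval x

variable {a b b₀ κ B H x Λ : ℝ} {k l m n : ℕ} {P Q : ℝ[X]}

theorem jt_coeff : jt l P x = (taylor x P).coeff l := (taylor_coeff x P l).symm

theorem jt_add : jt l (P + Q) x = jt l P x + jt l Q x := by simp [jt]

theorem jt_sub : jt l (P - Q) x = jt l P x - jt l Q x := by simp [jt]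

theorem jt_zero : jt 0 P x = P.eval x := by simp [jt]

theorem jt_one : jt 1 P x = P.derivative.eval x := by rw [jt, hasseDeriv_one']

theorem jt_step0 (h : ℝ) : jt 0 (C h + X * P) x = h + x * jt 0 P x := by simp [jt]

theorem jt_step (h : ℝ) : jt (l + 1) (C h + X * P) x = x * jt (l + 1) P x + jt l P x := by
  simp only [jt_coeff, map_add, taylor_mul, taylor_X, taylor_C, add_mul, coeff_add, coeff_X_mul,
    coeff_C_mul, coeff_C_succ]
  ring

theorem hasDerivAt_jt (l : ℕ) (P : ℝ[X]) (x : ℝ) :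
    HasDerivAt (jt l P) ((l + 1) * jt (l + 1) P x) x := by
  have h := (hasseDeriv l P).hasDerivAt x
  have e := LinearMap.congr_fun (hasseDeriv_comp (R := ℝ) 1 l) P
  rw [LinearMap.comp_apply, hasseDeriv_one', Nat.choose_one_right, add_comm 1 l] at e
  rw [e] at h
  have e2 : ((l : ℝ) + 1) * jt (l + 1) P x = eval x ((l + 1) • hasseDeriv (l + 1) P) := by
    simp [jt]
  rw [e2]
  exact h

theorem continuous_jt (l : ℕ) (P : ℝ[X]) : Continuous (jt l P) := (hasseDeriv l P).continuous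

/-- bounded coefficients, degree less than `n` -/
def Adm (H : ℝ) (n : ℕ) (P : ℝ[X]) : Prop := (∀ i, |P.coeff i| ≤ H) ∧ ∀ i, n ≤ i → P.coeff i = 0

theorem Adm.divX (h : Adm H (n + 1) P) : Adm H n P.divX :=
  ⟨fun i => by rw [coeff_divX]; exact h.1 _, fun i hi => by rw [coeff_divX]; exact h.2 _ (by omega)⟩

theorem Adm.zero (h : Adm H 0 P) : P = 0 := Polynomial.ext fun i => h.2 i i.zero_le

theorem Adm.nonneg (h : Adm H n P) : 0 ≤ H := (abs_nonneg _).trans (h.1 0)

theorem Adm.app (h : Adm H m P) (h' : Adm H n Q) : Adm H (m + n) (P + X ^ m * Q) := by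
  refine ⟨fun i => ?_, fun i hi => ?_⟩
  · rw [coeff_add, coeff_X_pow_mul']
    split_ifs with h1
    · rw [h.2 i h1, zero_add]; exact h'.1 _
    · rw [add_zero]; exact h.1 _
  · rw [coeff_add, coeff_X_pow_mul', if_pos (by omega), h.2 i (by omega), h'.2 _ (by omega),
      add_zero]

theorem Adm.sub (h : Adm H n P) (h' : Adm H n Q) : Adm (2 * H) n (P - Q) :=
  ⟨fun i => by rw [coeff_sub]; linarith [abs_sub (P.coeff i) (Q.coeff i), h.1 i, h'.1 i],
    fun i hi => by rw [coeff_sub, h.2 i hi, h'.2 i hi, sub_zero]⟩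

theorem Adm.eq_zero (h : Adm H m P) (e : P + X ^ m * Q = 0) : P = 0 ∧ Q = 0 := by
  have h1 : Q = 0 := Polynomial.ext fun i => by
    have := congrArg (coeff · (i + m)) e
    simpa [h.2 (i + m) (by omega), coeff_X_pow_mul] using this
  rw [h1, mul_zero, add_zero] at e
  exact ⟨e, h1⟩

theorem eq_step (P : ℝ[X]) : P = C (P.coeff 0) + X * P.divX := by rw [add_comm, X_mul_divX_add]

/-- upper bound for the jets -/
theorem Adm.jt_le (hb : 1 ≤ b) (h0 : b₀ < b) (hx : 0 ≤ x) (hx' : x ≤ b₀) :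
    ∀ n P, Adm H n P → ∀ l, |jt l P x| ≤ H * (b - b₀)⁻¹ ^ (l + 1) * b ^ n := by
  have hc : 0 < (b - b₀)⁻¹ := inv_pos.2 (sub_pos.2 h0)
  have h1 : (b - b₀)⁻¹ * (b - b₀) = 1 := inv_mul_cancel₀ (sub_pos.2 h0).ne'
  generalize (b - b₀)⁻¹ = c at hc h1
  intro n
  induction n with
  | zero => intro P h l; have := h.nonneg; rw [h.zero]; simp only [jt, map_zero, eval_zero, abs_zero]; positivity
  | succ n ih =>
    intro P h l
    have hH := h.nonneg
    have h2 := ih _ h.divX
    have h3 : 1 ≤ b ^ n := one_le_pow₀ hb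
    rw [eq_step P]
    have key : ∀ (u v : ℝ) (j : ℕ), |u| ≤ H * c ^ (j + 1) * b ^ n → |v| ≤ H * c ^ j * b ^ n →
        |x * u + v| ≤ H * c ^ (j + 1) * b ^ (n + 1) := by
      intro u v j hu hv
      have e : 0 ≤ H * c ^ j * b ^ n := by positivity
      have := abs_add_le (x * u) v
      rw [abs_mul, abs_of_nonneg hx] at this
      have h5 : x * |u| ≤ b₀ * (H * c ^ (j + 1) * b ^ n) :=
        mul_le_mul hx' hu (abs_nonneg _) (hx.trans hx')
      calc _ ≤ b₀ * (H * c ^ (j + 1) * b ^ n) + H * c ^ j * b ^ n * (c * (b - b₀)) := by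
            rw [h1]; linarith
        _ = _ := by ring
    cases l with
    | zero =>
      rw [jt_step0, add_comm]
      exact key _ _ 0 (h2 0) ((h.1 0).trans (by simpa using le_mul_of_one_le_right hH h3))
    | succ l => rw [jt_step]; exact key _ _ (l + 1) (h2 _) (h2 _)

/-- `x` is almost a root of order `k` -/
def Near (κ B : ℝ) (k : ℕ) (P : ℝ[X]) (x : ℝ) : Prop := ∀ l < k, |jt l P x| ≤ B * κ ^ l

theorem Near.mono {B' : ℝ} (h : Near κ B k P x) (hκ : 0 ≤ κ) (hB : B ≤ B') : Near κ B' k P x :=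
  fun l hl => (h l hl).trans (mul_le_mul_of_nonneg_right hB (pow_nonneg hκ l))

theorem Near.pred (h : Near κ B (k + 1) P x) : Near κ B k P x := fun l hl => h l (by omega)

theorem near_succ (h : Near κ B k P x) (h' : |jt k P x| ≤ B * κ ^ k) : Near κ B (k + 1) P x :=
  fun l hl => (Nat.lt_succ_iff_lt_or_eq.1 hl).elim (h l) fun e => e ▸ h'

theorem up_one (ha : 1 < a) (hκ : κ * (a - 1) = 1) (hx : a ≤ x) (hB : H * κ ≤ B) {h : ℝ}
    (hh : |h| ≤ H) (_hΛ : 0 ≤ Λ) (h1 : Near κ B l P x)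
    (h2 : |jt l (C h + X * P) x| ≤ Λ + B * κ ^ l) : |jt l P x| ≤ Λ / a + B * κ ^ l := by
  have hk : 0 < κ := by nlinarith
  have key : ∀ u v w : ℝ, |x * u + v| ≤ Λ + w → |v| ≤ w * (a - 1) → |u| ≤ Λ / a + w := by
    intro u v w h3 h4
    have h5 := abs_sub (x * u + v) v
    rw [add_sub_cancel_right, abs_mul, abs_of_pos (by linarith : 0 < x)] at h5
    have h6 : a * |u| ≤ x * |u| := mul_le_mul_of_nonneg_right hx (abs_nonneg _)
    rw [div_add' _ _ _ (by linarith), le_div_iff₀ (by linarith)]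
    linarith
  cases l with
  | zero =>
    rw [jt_step0, add_comm] at h2
    refine key _ _ _ h2 (hh.trans ?_)
    calc H = H * κ * (a - 1) := by rw [mul_assoc, hκ, mul_one]
      _ ≤ _ := by rw [pow_zero, mul_one]; exact mul_le_mul_of_nonneg_right hB (by linarith)
  | succ l =>
    rw [jt_step] at h2
    refine key _ _ _ h2 ((h1 l l.lt_succ_self).trans_eq ?_)
    rw [pow_succ, mul_assoc, mul_assoc, hκ, mul_one]

theorem up_near (ha : 1 < a) (hκ : κ * (a - 1) = 1) (hx : a ≤ x) (hB : H * κ ≤ B) {h : ℝ}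
    (hh : |h| ≤ H) : ∀ k, Near κ B k (C h + X * P) x → Near κ B k P x := by
  intro k
  induction k with
  | zero => exact fun _ l hl => absurd hl l.not_lt_zero
  | succ k ih =>
    intro h1
    have := up_one (Λ := 0) ha hκ hx hB hh le_rfl (ih h1.pred)
      (by rw [zero_add]; exact h1 k k.lt_succ_self)
    exact near_succ (ih h1.pred) (by simpa using this)

/-- removing the lowest digits -/
theorem up (ha : 1 < a) (hκ : κ * (a - 1) = 1) (hx : a ≤ x) (hB : H * κ ≤ B) :
    ∀ m P Λ, Adm H m P → 0 ≤ Λ → Near κ B k (P + X ^ m * Q) x →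
      Near κ B k Q x ∧ (|jt k (P + X ^ m * Q) x| ≤ Λ + B * κ ^ k →
        |jt k Q x| ≤ Λ / a ^ m + B * κ ^ k) := by
  intro m
  induction m with
  | zero => intro P Λ h _ h1; rw [h.zero] at h1 ⊢; simpa using h1
  | succ m ih =>
    intro P Λ h h0 h1
    have e : P + X ^ (m + 1) * Q = C (P.coeff 0) + X * (P.divX + X ^ m * Q) := by
      conv_lhs => rw [eq_step P]
      ring
    rw [e] at h1 ⊢
    have h2 := up_near ha hκ hx hB (h.1 0) k h1
    have h3 := ih _ (Λ / a) h.divX (div_nonneg h0 (by linarith)) h2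
    refine ⟨h3.1, fun h4 => (h3.2 (up_one ha hκ hx hB (h.1 0) h0 h2 h4)).trans_eq ?_⟩
    rw [div_div, pow_succ']

open Filter MeasureTheory Set Real in
theorem mahler_le {p : ℂ[X]} {c : ℝ} (hc : 0 < c) (h : ∀ z : ℂ, ‖z‖ = 1 → ‖p.eval z‖ ≤ c) :
    p.mahlerMeasure ≤ c := by
  by_cases hp : p = 0
  · simp [hp, hc.le]
  rw [show c = rexp (circleAverage (fun _ ↦ log c) 0 1)
    by simp [circleAverage_def, mul_assoc, exp_log hc], mahlerMeasure_def_of_ne_zero hp,
    circleAverage_def, smul_eq_mul]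
  gcongr
  apply intervalIntegral.integral_mono_ae_restrict (by positivity)
    p.intervalIntegrable_mahlerMeasure (by simp)
  rw [EventuallyLE, eventually_iff_exists_mem]
  use {x : ℝ | eval (circleMap 0 1 x) p ≠ 0}
  constructor
  · rw [mem_ae_iff, compl_def, Measure.restrict_apply' (by simp)]
    apply (Finite.of_sdiff _ <| finite_singleton (2 * π)).measure_zero
    simp only [ne_eq, mem_ofPred_eq, Decidable.not_not, inter_sdiff_assoc, Icc_sdiff_right]
    rw [ofPred_inter_eq_sep]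
    apply Finite.of_finite_image (f := circleMap 0 1) ((Multiset.finite_toSet p.roots).subset _)
      <| fun _ h _ k l ↦ injOn_circleMap_of_abs_sub_le' one_ne_zero (by linarith) h.1 k.1 l
    simp [hp]
  · intro y hy
    exact log_le_log (norm_pos_iff.2 hy) (h _ (by simp))

theorem mahler_pow (p : ℂ[X]) (n : ℕ) : (p ^ n).mahlerMeasure = p.mahlerMeasure ^ n := by
  induction n with
  | zero => simp
  | succ n ih => rw [pow_succ, mahlerMeasure_mul, ih, pow_succ]

/-- a polynomial with a root of high order is large somewhere on a smaller circle -/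
theorem circle_bound {ρ c : ℝ} (hρ : 0 < ρ) (hx : 0 ≤ x) (hc : 0 < c) (S : ℝ[X]) (K : ℕ)
    (h : ∀ z : ℂ, ‖z‖ = ρ → ‖(z - x) ^ K * aeval z S‖ ≤ c) :
    x ^ K * (|S.leadingCoeff| * ρ ^ S.natDegree) ≤ c := by
  have h0 : (ρ : ℂ) ≠ 0 := by exact_mod_cast hρ.ne'
  have h1 := mahler_le (p := (C (ρ : ℂ) * X + C (-x : ℂ)) ^ K *
    (S.map (algebraMap ℝ ℂ)).comp (C (ρ : ℂ) * X)) hc fun z hz => by
      have := h (ρ * z) (by simp [hz, hρ.le])
      simpa [eval_comp, eval_map_algebraMap, sub_eq_add_neg] using this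
  rw [mahlerMeasure_mul, mahler_pow, mahlerMeasure_C_mul_X_add_C h0] at h1
  refine le_trans (mul_le_mul (pow_le_pow_left₀ hx ?_ K) ?_ (by positivity) (by positivity)) h1
  · exact le_max_of_le_right (by simp [abs_of_nonneg hx])
  · refine le_trans (le_of_eq ?_) (leadingCoeff_le_mahlerMeasure _)
    rw [leadingCoeff_comp (by rw [natDegree_C_mul_X _ h0]; exact one_ne_zero),
      leadingCoeff_C_mul_X, leadingCoeff_map, natDegree_map]
    simp [abs_of_pos hρ]

/-- no almost root of high order -/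
theorem jensen (ha : 1 < a) (hH : 0 ≤ H) : ∃ K : ℕ, ∀ κ B b : ℝ, 0 ≤ κ → 0 ≤ B → ∃ d₀ : ℕ,
    ∀ (P : ℝ[X]) (x : ℝ), a ≤ x → x ≤ b → (∀ i, |P.coeff i| ≤ H) → 1 ≤ |P.leadingCoeff| →
      Near κ B K P x → P.natDegree < d₀ := by
  obtain ⟨ρ, r1, r2⟩ := exists_between ha
  have r0 : 0 < ρ := by linarith
  obtain ⟨K, hK⟩ := pow_unbounded_of_one_lt (H * ρ / (ρ - 1) + 1) ((one_lt_div r0).2 r2)
  refine ⟨K, fun κ B b hκ hB => ?_⟩
  obtain ⟨d₁, hd⟩ := pow_unbounded_of_one_lt (∑ l ∈ range K, B * κ ^ l * (ρ + b) ^ l) r1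
  refine ⟨max d₁ K + 1, fun P x h1 h2 h3 h4 h5 => ?_⟩
  by_contra h6
  have h7 : d₁ ≤ P.natDegree := by omega
  have h8 : K < P.natDegree := by omega
  obtain ⟨S, hS⟩ : X ^ K ∣ taylor x P - ∑ l ∈ range K, monomial l (jt l P x) := by
    refine X_pow_dvd_iff.2 fun d hd => ?_
    simp [coeff_monomial, jt_coeff, hd]
  have hT : (∑ l ∈ range K, monomial l (jt l P x)).natDegree < (taylor x P).natDegree := by
    rw [natDegree_taylor]
    refine lt_of_le_of_lt (natDegree_sum_le_of_forall_le _ _ fun l hl => ?_) h8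
    exact (natDegree_monomial_le _).trans (mem_range.1 hl).le
  have e1 := leadingCoeff_sub_of_degree_lt (degree_lt_degree hT)
  have e2 := natDegree_sub_eq_left_of_natDegree_lt hT
  rw [hS, leadingCoeff_taylor, leadingCoeff_mul, leadingCoeff_X_pow, one_mul] at e1
  have S0 : S ≠ 0 := by
    rintro rfl
    rw [← e1, leadingCoeff_zero, abs_zero] at h4
    linarith
  rw [hS, natDegree_taylor, natDegree_X_pow_mul _ S0] at e2
  have h9 := circle_bound (c := (H * ρ / (ρ - 1) + 1) * ρ ^ P.natDegree) r0 (x := x) (by linarith)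
    (by have : 0 < ρ - 1 := by linarith
        positivity) (taylor (-x) S) K fun z hz => by
    have e3 := congrArg (aeval (z - x)) hS
    simp only [map_sub, map_mul, map_pow, aeval_X, map_sum, aeval_monomial, taylor_apply,
      aeval_comp, map_add, aeval_C, Complex.coe_algebraMap, sub_add_cancel] at e3
    simp only [taylor_apply, aeval_comp, map_add, aeval_X, aeval_C, Complex.coe_algebraMap,
      Complex.ofReal_neg, ← sub_eq_add_neg, ← e3]
    refine (norm_sub_le _ _).trans ?_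
    rw [add_mul, one_mul]
    refine add_le_add ?_ (le_trans ?_ (hd.le.trans (pow_le_pow_right₀ r1.le h7)))
    · rw [aeval_eq_sum_range]
      refine (norm_sum_le_of_le _ (n := fun i => H * ρ ^ i) fun i _ => ?_).trans ?_
      · rw [norm_smul, norm_pow, hz]
        exact mul_le_mul_of_nonneg_right (h3 i) (by positivity)
      · rw [← mul_sum, geom_sum_eq r1.ne', div_mul_eq_mul_div, mul_div_assoc',
          div_le_div_iff_of_pos_right (by linarith), pow_succ]
        nlinarith
    · refine norm_sum_le_of_le _ fun l hl => ?_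
      rw [norm_mul, norm_pow, Complex.norm_real]
      refine mul_le_mul (h5 l (mem_range.1 hl)) (pow_le_pow_left₀ (norm_nonneg _) ?_ l)
        (by positivity) (by positivity)
      refine (norm_sub_le _ _).trans ?_
      rw [hz, Complex.norm_real, Real.norm_eq_abs, abs_of_pos (by linarith)]
      linarith
  rw [leadingCoeff_taylor, natDegree_taylor, e1, ← e2, pow_add] at h9
  rw [div_pow, lt_div_iff₀ (by positivity)] at hK
  have h10 : a ^ K ≤ x ^ K := pow_le_pow_left₀ (by linarith) h1 K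
  have h11 : 0 < ρ ^ S.natDegree := by positivity
  have h12 : 0 < x ^ K := pow_pos (by linarith) K
  nlinarith [mul_le_mul_of_nonneg_right h4 (mul_pos h11 h12).le, mul_lt_mul_of_pos_right hK h11,
    mul_le_mul_of_nonneg_right h10 h11.le]

end Pool.Agent.P.MP_0ff3a5_nt.Zn
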