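import Pool.Agent.P.MP_0ff3a5_nt.Zn.Sys

/-! A covering lemma, double counting, and the local shape of the jets. -/

namespace Pool.Agent.P.MP_0ff3a5_nt.Zn

open Polynomial Finset Filter Topology MeasureTheory Metric

theorem vitali {T U : Set ℝ} (l : ℝ → ℝ) {η : ℝ} (hη : 0 ≤ η)
    (h : ∀ x ∈ T, 0 < l x ∧ l x ≤ 1 ∧ closedBall x (l x) ⊆ U ∧
      ∀ y ∈ T, |y - x| ≤ 5 * l x → |y - x| ≤ η * l x) :
    volume T ≤ ENNReal.ofReal η * volume U := by
  obtain ⟨u, h1, h2, h3⟩ := Vitali.exists_disjoint_subfamily_covering_enlargement_closedBall T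
    (fun x => x) l 1 (fun x hx => (h x hx).2.1) 5 (by norm_num)
  have h4 : u.Countable := h2.countable_of_nonempty_interior fun x hx =>
    ⟨x, ball_subset_interior_closedBall (mem_ball_self (h x (h1 hx)).1)⟩
  calc volume T ≤ volume (⋃ y ∈ u, closedBall y (η * l y)) := by
        refine measure_mono fun x hx => ?_
        obtain ⟨y, hy, h5⟩ := h3 x hx
        exact Set.mem_biUnion hy ((h y (h1 hy)).2.2.2 x hx
          (h5 (mem_closedBall_self (h x hx).1.le)))
    _ ≤ ∑' y : u, volume (closedBall (y : ℝ) (η * l y)) := measure_biUnion_le _ h4 _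
    _ = ENNReal.ofReal η * ∑' y : u, volume (closedBall (y : ℝ) (l y)) := by
        rw [← ENNReal.tsum_mul_left]
        refine tsum_congr fun y => ?_
        rw [Real.volume_closedBall, Real.volume_closedBall, ← ENNReal.ofReal_mul hη, mul_left_comm]
    _ = ENNReal.ofReal η * volume (⋃ y ∈ u, closedBall y (l y)) := by
        rw [measure_biUnion h4 h2 fun _ _ => measurableSet_closedBall]
    _ ≤ _ := by
        gcongr
        exact Set.iUnion₂_subset fun y hy => (h y (h1 hy)).2.2.1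

namespace Sys

variable {D : Type} [Fintype D] (s : Sys D) {N : ℕ} {Ω : Type} [MeasurableSpace Ω] {μ : Measure Ω}

theorem E_integrable {F : Ω → ℝ[X] → ℝ} (h : ∀ P, Integrable (F · P) μ) :
    Integrable (fun x => s.E N (F x)) μ :=
  integrable_finsetSum _ fun _ _ => integrable_finsetSum _ fun _ _ => (h _).const_mul _

theorem E_integral {F : Ω → ℝ[X] → ℝ} (h : ∀ P, Integrable (F · P) μ) :
    ∫ x, s.E N (F x) ∂μ = s.E N fun P => ∫ x, F x P ∂μ := by
  unfold E
  rw [integral_finsetSum _ fun _ _ => integrable_finsetSum _ fun _ _ => (h _).const_mul _]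
  refine sum_congr rfl fun _ _ => ?_
  rw [integral_finsetSum _ fun _ _ => (h _).const_mul _]
  exact sum_congr rfl fun _ _ => integral_const_mul _ _

theorem E_markov [IsFiniteMeasure μ] (T U : ℝ[X] → Set Ω) (hT : ∀ P, MeasurableSet (T P))
    (hU : ∀ P, MeasurableSet (U P)) {η M : ℝ} (hη : 0 ≤ η)
    (h : ∀ P, s.Ok N P → μ.real (T P) ≤ η * μ.real (U P))
    (hM : ∀ᵐ x ∂μ, s.E N (fun P => ind (x ∈ U P)) ≤ M) (ε : ℝ) :
    ε * μ.real {x | ε ≤ s.E N fun P => ind (x ∈ T P)} ≤ η * (μ.real Set.univ * M) := by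
  have e : ∀ S : Set Ω, (fun x => ind (x ∈ S)) = S.indicator 1 := fun S => funext fun x => by
    by_cases hx : x ∈ S <;> simp [ind, hx]
  have i : ∀ S : Set Ω, MeasurableSet S → Integrable (fun x => ind (x ∈ S)) μ := fun S hS => by
    rw [e]; exact (integrable_const 1).indicator hS
  refine (mul_meas_ge_le_integral_of_nonneg (.of_forall fun x => s.E_nonneg fun _ => ind_nonneg)
    (s.E_integrable fun P => i _ (hT P)) ε).trans ?_
  have h2 := integral_mono_ae (s.E_integrable fun P => i _ (hU P)) (integrable_const M) hM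
  rw [integral_const, smul_eq_mul] at h2
  refine le_trans ?_ (mul_le_mul_of_nonneg_left h2 hη)
  rw [s.E_integral fun P => i _ (hT P), s.E_integral fun P => i _ (hU P), ← E_mul]
  refine s.E_mono fun P hP => ?_
  rw [e, e, integral_indicator_one (hT P), integral_indicator_one (hU P)]
  exact h P hP

end Sys

theorem mvt {f f' : ℝ → ℝ} (hf : ∀ y, HasDerivAt f (f' y) y) {x ρ M y : ℝ}
    (h : ∀ z, |z - x| ≤ ρ → |f' z| ≤ M) (hy : |y - x| ≤ ρ) : |f y - f x| ≤ M * |y - x| :=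
  (convex_closedBall x ρ).norm_image_sub_le_of_norm_hasDerivWithin_le
    (fun z _ => (hf z).hasDerivWithinAt) (fun z hz => h z hz)
    (mem_closedBall_self ((abs_nonneg _).trans hy)) hy

theorem jt_mvt {P : ℝ[X]} {l : ℕ} {x ρ M y : ℝ} (h : ∀ z, |z - x| ≤ ρ → |jt (l + 1) P z| ≤ M)
    (hy : |y - x| ≤ ρ) : |jt l P y - jt l P x| ≤ (l + 1) * M * |y - x| :=
  mvt (hasDerivAt_jt l P) (fun z hz => by
    rw [abs_mul, abs_of_nonneg (by positivity : (0 : ℝ) ≤ l + 1)]
    exact mul_le_mul_of_nonneg_left (h z hz) (by positivity)) hy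

/-- near a point where the first free jet is large -/
theorem shape {P : ℝ[X]} {k : ℕ} {κ B x ρ M : ℝ} (hκ : 1 ≤ κ) (hB : 1 ≤ B) (hρ : 0 ≤ ρ)
    (h0 : Near κ B (k + 1) P x) (h1 : ∀ y, |y - x| ≤ 5 * ρ → |jt (k + 2) P y| ≤ M)
    (h2 : 10 * (k + 2) * M * ρ ≤ |jt (k + 1) P x|)
    (h3 : k * (2 * (k + 1) * (|jt (k + 1) P x| * ρ) + B * κ ^ k + 1) * ρ ≤ 1) :
    (∀ y, |y - x| ≤ ρ → Near κ (2 * B) k P y ∧
      |jt k P y| ≤ 2 * (k + 1) * (|jt (k + 1) P x| * ρ) + B * κ ^ k) ∧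
    ∀ y, |y - x| ≤ 5 * ρ → Near κ B (k + 1) P y → |jt (k + 1) P x| * |y - x| ≤ 4 * (B * κ ^ k) := by
  set J := jt (k + 1) P x
  have hM : 0 ≤ M := (abs_nonneg _).trans (h1 x (by simp; positivity))
  have a1 : ∀ z, |z - x| ≤ 5 * ρ → |jt (k + 1) P z - J| ≤ |J| / 2 := fun z hz => by
    have := jt_mvt h1 hz
    push_cast at this
    have h4 : ((k : ℝ) + 1 + 1) * M * |z - x| ≤ (k + 1 + 1) * M * (5 * ρ) := by gcongr
    linarith
  have a2 : ∀ y, |y - x| ≤ 5 * ρ → |jt k P y - jt k P x - (k + 1) * J * (y - x)| ≤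
      (k + 1) * (|J| / 2) * |y - x| := fun y hy => by
    have := mvt (f := fun y => jt k P y - (k + 1) * J * y)
      (f' := fun y => (k + 1) * (jt (k + 1) P y - J)) (M := (k + 1) * (|J| / 2)) (fun y =>
        ((hasDerivAt_jt k P y).sub ((hasDerivAt_id y).const_mul ((k + 1) * J))).congr_deriv
          (by ring)) (fun z hz => by
        rw [abs_mul, abs_of_nonneg (by positivity : (0 : ℝ) ≤ k + 1)]
        exact mul_le_mul_of_nonneg_left (a1 z hz) (by positivity)) hy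
    convert this using 2
    ring
  have a3 : ∀ y, |(k + 1) * J * (y - x)| = (k + 1) * (|J| * |y - x|) := fun y => by
    rw [abs_mul, abs_mul, abs_of_nonneg (by positivity : (0 : ℝ) ≤ k + 1), mul_assoc]
  have b0 : ∀ l ≤ k, |jt l P x| ≤ B * κ ^ k := fun l hl => (h0 l (by omega)).trans (by gcongr)
  have b1 : ∀ y, |y - x| ≤ ρ → |jt k P y| ≤ 2 * (k + 1) * (|J| * ρ) + B * κ ^ k := fun y hy => by
    have c1 := a2 y (by linarith)
    have c2 := abs_add_three (jt k P y - jt k P x - (k + 1) * J * (y - x)) (jt k P x)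
      ((k + 1) * J * (y - x))
    rw [a3, show jt k P y - jt k P x - (k + 1) * J * (y - x) + jt k P x + (k + 1) * J * (y - x) =
      jt k P y by ring] at c2
    have c3 : (k + 1 : ℝ) * (|J| * |y - x|) ≤ (k + 1) * (|J| * ρ) := by gcongr
    have c4 : 0 ≤ (k + 1 : ℝ) * (|J| * ρ) := by positivity
    linarith [b0 k le_rfl]
  have b4 : 0 ≤ 2 * (k + 1 : ℝ) * (|J| * ρ) := by positivity
  have b5 : 0 ≤ B * κ ^ k := by positivity
  set G := 2 * (k + 1) * (|J| * ρ) + B * κ ^ k + 1 with hG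
  have b2 : ∀ l < k, (∀ z, |z - x| ≤ ρ → |jt (l + 1) P z| ≤ G) → ∀ y, |y - x| ≤ ρ →
      |jt l P y| ≤ |jt l P x| + 1 := fun l hl h y hy => by
    have c1 := jt_mvt h hy
    have c2 : (l + 1 : ℝ) ≤ k := by exact_mod_cast hl
    have c3 : (l + 1 : ℝ) * G * |y - x| ≤ k * G * ρ := by gcongr
    linarith [abs_sub_abs_le_abs_sub (jt l P y) (jt l P x)]
  have b3 : ∀ i l, l + i = k → ∀ y, |y - x| ≤ ρ → |jt l P y| ≤ G := by
    intro i
    induction i with
    | zero => rintro l rfl y hy; exact (b1 y hy).trans (by linarith)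
    | succ i ih =>
      intro l hl y hy
      linarith [b2 l (by omega) (ih (l + 1) (by omega)) y hy, b0 l (by omega)]
  refine ⟨fun y hy => ⟨fun l hl => ?_, b1 y hy⟩, fun y hy h => ?_⟩
  · have : 1 ≤ B * κ ^ l := one_le_mul_of_one_le_of_one_le hB (one_le_pow₀ hκ)
    linarith [b2 l hl (b3 (k - (l + 1)) (l + 1) (by omega)) y hy, h0 l (by omega)]
  · have c1 := a2 y hy
    have c2 := abs_sub (jt k P y - jt k P x) (jt k P y - jt k P x - (k + 1) * J * (y - x))
    rw [sub_sub_cancel, a3] at c2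
    have c3 : 0 ≤ (k : ℝ) * (|J| * |y - x|) := by positivity
    linarith [abs_sub (jt k P y) (jt k P x), h k k.lt_succ_self, b0 k le_rfl]

end Pool.Agent.P.MP_0ff3a5_nt.Zn
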