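import Pool.Agent.P.MP_0ff3a5_nt.Zn.Sym

/-! An explicit mean zero trigonometric polynomial that is at least one on a half circle. -/

namespace Pool.Agent.P.MP_0ff3a5_nt.Zn

open Finset Real Filter Topology MeasureTheory

/-- the coefficients, times `10000` -/
def cf : Fin 47 → ℤ :=
  ![43, -68, 0, 63, 0, -77, 0, 97, 0, -127, 0, 170, 0, -243, 0, 389, 0, -844, 507, 1232, -1682,
  -1709, 7263, 0, 7263, -1709, -1682, 1232, 507, -844, 0, 389, 0, -243, 0, 170, 0, -127, 0, 97, 0,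
  -77, 0, 63, 0, -68, 43]

/-- the coefficients -/
noncomputable def ps (h : Fin 47) : ℝ := cf h / 10000

/-- the frequencies -/
def fr (h : Fin 47) : ℤ := h - 23

/-- the polynomial in the cosine, in homogeneous form -/
def hp (c w : ℝ) : ℝ :=
  38 * w ^ 23 + 27710 * c * w ^ 22 - 263392 * c ^ 2 * w ^ 21 + 140328 * c ^ 3 * w ^ 20 + 4438320 *
  c ^ 4 * w ^ 19 - 4509440 * c ^ 5 * w ^ 18 - 46589248 * c ^ 6 * w ^ 17 + 54307968 * c ^ 7 * w ^
  16 + 294900992 * c ^ 8 * w ^ 15 - 362053120 * c ^ 9 * w ^ 14 - 1173816320 * c ^ 10 * w ^ 13 +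
  1474543616 * c ^ 11 * w ^ 12 + 3039014912 * c ^ 12 * w ^ 11 - 3856498688 * c ^ 13 * w ^ 10 -
  5190352896 * c ^ 14 * w ^ 9 + 6611140608 * c ^ 15 * w ^ 8 + 5799215104 * c ^ 16 * w ^ 7 -
  7388921856 * c ^ 17 * w ^ 6 - 4076077056 * c ^ 18 * w ^ 5 + 5185208320 * c ^ 19 * w ^ 4 +
  1634729984 * c ^ 20 * w ^ 3 - 2074083328 * c ^ 21 * w ^ 2 - 285212672 * c ^ 22 * w + 360710144 *
  c ^ 23

theorem hp_of {l u c : ℝ} (h0 : l < u) (h1 : l ≤ c) (h2 : c ≤ u)
    (h : ∀ y z : ℝ, 0 ≤ y → 0 ≤ z → 0 ≤ hp (l * z + u * y) (y + z)) : 0 ≤ hp c 1 := by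
  have := sub_pos.2 h0
  convert h ((c - l) / (u - l)) ((u - c) / (u - l)) (div_nonneg (sub_nonneg.2 h1) this.le)
    (div_nonneg (sub_nonneg.2 h2) this.le) using 2 <;> field_simp <;> ring

theorem hp_nonneg {c : ℝ} (h0 : -(1 / 1000) ≤ c) (h1 : c ≤ 1) : 0 ≤ hp c 1 := by
  rcases le_total c (1 / 5) with a1 | a1
  · exact hp_of (by norm_num) h0 a1 fun y z _ _ => by unfold hp; ring_nf; positivity
  rcases le_total c (3 / 10) with a2 | a2
  · exact hp_of (by norm_num) a1 a2 fun y z _ _ => by unfold hp; ring_nf; positivity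
  rcases le_total c (1 / 2) with a3 | a3
  · exact hp_of (by norm_num) a2 a3 fun y z _ _ => by unfold hp; ring_nf; positivity
  rcases le_total c (7 / 10) with a4 | a4
  · exact hp_of (by norm_num) a3 a4 fun y z _ _ => by unfold hp; ring_nf; positivity
  rcases le_total c (9 / 10) with a5 | a5
  · exact hp_of (by norm_num) a4 a5 fun y z _ _ => by unfold hp; ring_nf; positivity
  · exact hp_of (by norm_num) a5 h1 fun y z _ _ => by unfold hp; ring_nf; positivity

theorem cos_step (θ n : ℝ) :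
    cos ((n + 2) * θ) = 2 * cos θ * cos ((n + 1) * θ) - cos (n * θ) := by
  rw [show (n + 2) * θ = (n + 1) * θ + θ by ring, show n * θ = (n + 1) * θ - θ by ring, cos_add,
    cos_sub]
  ring

theorem ps_ge (θ : ℝ) (h : -(1 / 1000) ≤ cos θ) : 1 ≤ ∑ h, ps h * cos (fr h * θ) := by
  have h0 := hp_nonneg h (cos_le_one θ)
  have c0 : cos (0 * θ) = 1 := by simp
  have c1 : cos (1 * θ) = cos θ := by simp
  have c2 : cos (2 * θ) = -1 + 2 * cos θ ^ 2 := by
    have := cos_step θ 0; norm_num only at this; rw [this, c1, c0]; ring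
  have c3 : cos (3 * θ) = -3 * cos θ + 4 * cos θ ^ 3 := by
    have := cos_step θ 1; norm_num only at this; rw [this, c2, c1]; ring
  have c4 : cos (4 * θ) = 1 - 8 * cos θ ^ 2 + 8 * cos θ ^ 4 := by
    have := cos_step θ 2; norm_num only at this; rw [this, c3, c2]; ring
  have c5 : cos (5 * θ) = 5 * cos θ - 20 * cos θ ^ 3 + 16 * cos θ ^ 5 := by
    have := cos_step θ 3; norm_num only at this; rw [this, c4, c3]; ring
  have c6 : cos (6 * θ) = -1 + 18 * cos θ ^ 2 - 48 * cos θ ^ 4 + 32 * cos θ ^ 6 := by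
    have := cos_step θ 4; norm_num only at this; rw [this, c5, c4]; ring
  have c7 : cos (7 * θ) = -7 * cos θ + 56 * cos θ ^ 3 - 112 * cos θ ^ 5 + 64 * cos θ ^ 7 := by
    have := cos_step θ 5; norm_num only at this; rw [this, c6, c5]; ring
  have c8 : cos (8 * θ) = 1 - 32 * cos θ ^ 2 + 160 * cos θ ^ 4 - 256 * cos θ ^ 6 + 128 * cos θ ^
    8 := by
    have := cos_step θ 6; norm_num only at this; rw [this, c7, c6]; ring
  have c9 : cos (9 * θ) = 9 * cos θ - 120 * cos θ ^ 3 + 432 * cos θ ^ 5 - 576 * cos θ ^ 7 + 256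
    * cos θ ^ 9 := by
    have := cos_step θ 7; norm_num only at this; rw [this, c8, c7]; ring
  have c10 : cos (10 * θ) = -1 + 50 * cos θ ^ 2 - 400 * cos θ ^ 4 + 1120 * cos θ ^ 6 - 1280 *
    cos θ ^ 8 + 512 * cos θ ^ 10 := by
    have := cos_step θ 8; norm_num only at this; rw [this, c9, c8]; ring
  have c11 : cos (11 * θ) = -11 * cos θ + 220 * cos θ ^ 3 - 1232 * cos θ ^ 5 + 2816 * cos θ ^ 7
    - 2816 * cos θ ^ 9 + 1024 * cos θ ^ 11 := by
    have := cos_step θ 9; norm_num only at this; rw [this, c10, c9]; ring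
  have c12 : cos (12 * θ) = 1 - 72 * cos θ ^ 2 + 840 * cos θ ^ 4 - 3584 * cos θ ^ 6 + 6912 * cos
    θ ^ 8 - 6144 * cos θ ^ 10 + 2048 * cos θ ^ 12 := by
    have := cos_step θ 10; norm_num only at this; rw [this, c11, c10]; ring
  have c13 : cos (13 * θ) = 13 * cos θ - 364 * cos θ ^ 3 + 2912 * cos θ ^ 5 - 9984 * cos θ ^ 7 +
    16640 * cos θ ^ 9 - 13312 * cos θ ^ 11 + 4096 * cos θ ^ 13 := by
    have := cos_step θ 11; norm_num only at this; rw [this, c12, c11]; ring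
  have c14 : cos (14 * θ) = -1 + 98 * cos θ ^ 2 - 1568 * cos θ ^ 4 + 9408 * cos θ ^ 6 - 26880 *
    cos θ ^ 8 + 39424 * cos θ ^ 10 - 28672 * cos θ ^ 12 + 8192 * cos θ ^ 14 := by
    have := cos_step θ 12; norm_num only at this; rw [this, c13, c12]; ring
  have c15 : cos (15 * θ) = -15 * cos θ + 560 * cos θ ^ 3 - 6048 * cos θ ^ 5 + 28800 * cos θ ^ 7
    - 70400 * cos θ ^ 9 + 92160 * cos θ ^ 11 - 61440 * cos θ ^ 13 + 16384 * cos θ ^ 15 := by
    have := cos_step θ 13; norm_num only at this; rw [this, c14, c13]; ring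
  have c16 : cos (16 * θ) = 1 - 128 * cos θ ^ 2 + 2688 * cos θ ^ 4 - 21504 * cos θ ^ 6 + 84480 *
    cos θ ^ 8 - 180224 * cos θ ^ 10 + 212992 * cos θ ^ 12 - 131072 * cos θ ^ 14 + 32768 * cos θ ^
    16 := by
    have := cos_step θ 14; norm_num only at this; rw [this, c15, c14]; ring
  have c17 : cos (17 * θ) = 17 * cos θ - 816 * cos θ ^ 3 + 11424 * cos θ ^ 5 - 71808 * cos θ ^ 7
    + 239360 * cos θ ^ 9 - 452608 * cos θ ^ 11 + 487424 * cos θ ^ 13 - 278528 * cos θ ^ 15 + 65536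
    * cos θ ^ 17 := by
    have := cos_step θ 15; norm_num only at this; rw [this, c16, c15]; ring
  have c18 : cos (18 * θ) = -1 + 162 * cos θ ^ 2 - 4320 * cos θ ^ 4 + 44352 * cos θ ^ 6 - 228096
    * cos θ ^ 8 + 658944 * cos θ ^ 10 - 1118208 * cos θ ^ 12 + 1105920 * cos θ ^ 14 - 589824 * cos
    θ ^ 16 + 131072 * cos θ ^ 18 := by
    have := cos_step θ 16; norm_num only at this; rw [this, c17, c16]; ring
  have c19 : cos (19 * θ) = -19 * cos θ + 1140 * cos θ ^ 3 - 20064 * cos θ ^ 5 + 160512 * cos θ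
    ^ 7 - 695552 * cos θ ^ 9 + 1770496 * cos θ ^ 11 - 2723840 * cos θ ^ 13 + 2490368 * cos θ ^ 15
    - 1245184 * cos θ ^ 17 + 262144 * cos θ ^ 19 := by
    have := cos_step θ 17; norm_num only at this; rw [this, c18, c17]; ring
  have c20 : cos (20 * θ) = 1 - 200 * cos θ ^ 2 + 6600 * cos θ ^ 4 - 84480 * cos θ ^ 6 + 549120
    * cos θ ^ 8 - 2050048 * cos θ ^ 10 + 4659200 * cos θ ^ 12 - 6553600 * cos θ ^ 14 + 5570560 *
    cos θ ^ 16 - 2621440 * cos θ ^ 18 + 524288 * cos θ ^ 20 := by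
    have := cos_step θ 18; norm_num only at this; rw [this, c19, c18]; ring
  have c21 : cos (21 * θ) = 21 * cos θ - 1540 * cos θ ^ 3 + 33264 * cos θ ^ 5 - 329472 * cos θ ^
    7 + 1793792 * cos θ ^ 9 - 5870592 * cos θ ^ 11 + 12042240 * cos θ ^ 13 - 15597568 * cos θ ^ 15
    + 12386304 * cos θ ^ 17 - 5505024 * cos θ ^ 19 + 1048576 * cos θ ^ 21 := by
    have := cos_step θ 19; norm_num only at this; rw [this, c20, c19]; ring
  have c22 : cos (22 * θ) = -1 + 242 * cos θ ^ 2 - 9680 * cos θ ^ 4 + 151008 * cos θ ^ 6 -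
    1208064 * cos θ ^ 8 + 5637632 * cos θ ^ 10 - 16400384 * cos θ ^ 12 + 30638080 * cos θ ^ 14 -
    36765696 * cos θ ^ 16 + 27394048 * cos θ ^ 18 - 11534336 * cos θ ^ 20 + 2097152 * cos θ ^ 22
    := by
    have := cos_step θ 20; norm_num only at this; rw [this, c21, c20]; ring
  have c23 : cos (23 * θ) = -23 * cos θ + 2024 * cos θ ^ 3 - 52624 * cos θ ^ 5 + 631488 * cos θ
    ^ 7 - 4209920 * cos θ ^ 9 + 17145856 * cos θ ^ 11 - 44843008 * cos θ ^ 13 + 76873728 * cos θ ^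
    15 - 85917696 * cos θ ^ 17 + 60293120 * cos θ ^ 19 - 24117248 * cos θ ^ 21 + 4194304 * cos θ ^
    23 := by
    have := cos_step θ 21; norm_num only at this; rw [this, c22, c21]; ring
  unfold hp at h0
  simp only [Fin.sum_univ_succ, Fin.sum_univ_zero, ps, cf, fr, Matrix.cons_val_zero,
    Matrix.cons_val_succ, Fin.val_succ, Fin.val_zero]
  norm_num
  linarith

theorem ps_exp (θ : ℝ) : ∑ h, (ps h : ℂ) * Complex.exp (fr h * θ * Complex.I) =
    (∑ h, ps h * cos (fr h * θ) : ℝ) := by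
  have e : ∀ h, (fr h * θ : ℂ) = (fr h * θ : ℝ) := fun h => by push_cast; rfl
  simp only [e]
  apply Complex.ext
  · simp only [Complex.re_sum, Complex.re_ofReal_mul, Complex.exp_ofReal_mul_I_re,
      Complex.ofReal_re]
  · simp only [Complex.im_sum, Complex.im_ofReal_mul, Complex.exp_ofReal_mul_I_im,
      Complex.ofReal_im]
    simp only [Fin.sum_univ_succ, Fin.sum_univ_zero, ps, cf, fr, Matrix.cons_val_zero,
      Matrix.cons_val_succ, Fin.val_succ, Fin.val_zero]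
    norm_num

theorem ps_abs : ∑ h, |ps h| = 7257 / 2500 := by
  have : ∑ h, |cf h| = 29028 := by decide +kernel
  have := congrArg (fun z : ℤ => (z : ℝ) / 10000) this
  simp only [Int.cast_sum, Int.cast_abs, sum_div] at this
  simp only [ps, abs_div]
  norm_num at this ⊢
  exact this

theorem ps_sq : ∑ h, ps h ^ 2 = 30634681 / 25000000 := by
  have : ∑ h, cf h ^ 2 = 122538724 := by decide +kernel
  have := congrArg (fun z : ℤ => (z : ℝ) / 10000 ^ 2) this
  simp only [Int.cast_sum, Int.cast_pow, sum_div] at this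
  simp only [ps, div_pow, this]
  norm_num

theorem near {x : ℝ} {r t : ℕ} (hr : 0 < r) (x1 : 1 < x) (x2 : x < 2)
    (h1 : (7257 / 2500) ^ (2 * t) < x ^ r) (h2 : (30634681 / 25000000) ^ t * x ^ r < r.choose t) :
    ∃ U ∈ 𝓝 x, volume {y | y ∈ U ∧ ∃ ξ, 0 < ξ ∧ Sv ξ y} = 0 :=
  null_near fr ps 23 (by decide +kernel) rfl (by simp [ps, show cf 23 = 0 from rfl]) (H := 23)
    (fun h => by exact_mod_cast (by decide +kernel : ∀ h, |fr h| ≤ 23) h)
    (fun θ h => ⟨_, ps_ge θ h, ps_exp θ⟩) hr x1 x2 (by rwa [ps_abs]) (by rwa [ps_sq])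

theorem near_of {x : ℝ} (r t l u : ℕ) (x1 : 1 < x) (x2 : x < 2) (h1 : l ≤ 1000 * x)
    (h2 : 1000 * x ≤ u) (h : 0 < r ∧ 7257 ^ (2 * t) * 1000 ^ r < l ^ r * 2500 ^ (2 * t) ∧
      30634681 ^ t * u ^ r * t.factorial < r.descFactorial t * (25000000 ^ t * 1000 ^ r)) :
    ∃ U ∈ 𝓝 x, volume {y | y ∈ U ∧ ∃ ξ, 0 < ξ ∧ Sv ξ y} = 0 := by
  obtain ⟨hr, h3, h4⟩ := h
  rw [Nat.descFactorial_eq_factorial_mul_choose, mul_assoc t.factorial,
    mul_comm _ t.factorial] at h4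
  have h5 : (30634681 : ℝ) ^ t * u ^ r < r.choose t * (25000000 ^ t * 1000 ^ r) := by
    exact_mod_cast lt_of_mul_lt_mul_left h4 (Nat.zero_le _)
  have h6 : (7257 : ℝ) ^ (2 * t) * 1000 ^ r < l ^ r * 2500 ^ (2 * t) := by exact_mod_cast h3
  have h7 := pow_le_pow_left₀ l.cast_nonneg h1 r
  have h8 := pow_le_pow_left₀ (by positivity) h2 r
  rw [mul_pow] at h7 h8
  refine near hr x1 x2 (t := t) ?_ ?_
  · rw [div_pow, div_lt_iff₀ (by positivity)]
    refine lt_of_mul_lt_mul_right (h6.trans_le ?_) (by positivity : (0 : ℝ) ≤ 1000 ^ r)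
    exact (mul_le_mul_of_nonneg_right h7 (by positivity)).trans_eq (by ring)
  · rw [div_pow, div_mul_eq_mul_div, div_lt_iff₀ (by positivity)]
    refine lt_of_mul_lt_mul_right (lt_of_le_of_lt ?_ (h5.trans_eq (by ring)))
      (by positivity : (0 : ℝ) ≤ 1000 ^ r)
    exact le_trans (le_of_eq (by ring)) (mul_le_mul_of_nonneg_left h8 (by positivity))

theorem near_small {x : ℝ} (x1 : 1 < x) (x2 : 1000 * x ≤ 1194) :
    ∃ U ∈ 𝓝 x, volume {y | y ∈ U ∧ ∃ ξ, 0 < ξ ∧ Sv ξ y} = 0 := by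
  classical
  have h := pow_unbounded_of_one_lt ((7257 / 2500 : ℝ) ^ (2 * 1)) x1
  have h1 := Nat.find_spec h
  have h2 : 12 < Nat.find h := by
    by_contra h2
    have := (pow_le_pow_right₀ x1.le (not_lt.1 h2)).trans
      (pow_le_pow_left₀ (by linarith) (by linarith : x ≤ 1194 / 1000) 12)
    norm_num at this h1
    linarith
  obtain ⟨n, hn⟩ : ∃ n, Nat.find h = n + 1 := ⟨Nat.find h - 1, by omega⟩
  have h3 := not_lt.1 (Nat.find_min h (m := n) (by omega))
  refine near (by omega) x1 (by linarith) h1 ?_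
  have h4 : (13 : ℝ) ≤ Nat.find h := by exact_mod_cast h2
  rw [Nat.choose_one_right]
  refine lt_of_lt_of_le ?_ h4
  rw [hn, pow_succ x]
  nlinarith [mul_le_mul h3 (by linarith : x ≤ 1194 / 1000) (by linarith) (by positivity)]

/-- for almost every `x` below the golden ratio no orbit `ξ x ^ n` has all its fractional parts in
the lower half -/
theorem ae_not_sv : ∀ᵐ x : ℝ, 1 < x → 1000 * x ≤ 1619 → ∀ ξ, 0 < ξ → ¬ Sv ξ x := by
  have : volume {x : ℝ | (1 < x ∧ 1000 * x ≤ 1619) ∧ ∃ ξ, 0 < ξ ∧ Sv ξ x} = 0 := by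
    refine measure_null_of_locally_null _ fun x ⟨⟨x1, x3⟩, _⟩ => ?_
    have x2 : x < 2 := by linarith
    obtain ⟨U, h1, h2⟩ : ∃ U ∈ 𝓝 x, volume {y | y ∈ U ∧ ∃ ξ, 0 < ξ ∧ Sv ξ y} = 0 := by
      rcases le_total (1000 * x) 1194 with a0 | a0
      · exact near_small x1 a0
      rcases le_total (1000 * x) 1303 with a1 | a1
      · exact near_of 1000 83 1194 1303 x1 x2 a0 a1 (by decide +kernel)
      rcases le_total (1000 * x) 1413 with a2 | a2
      · exact near_of 1000 124 1303 1413 x1 x2 a1 a2 (by decide +kernel)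
      rcases le_total (1000 * x) 1500 with a3 | a3
      · exact near_of 1000 162 1413 1500 x1 x2 a2 a3 (by decide +kernel)
      rcases le_total (1000 * x) 1558 with a4 | a4
      · exact near_of 1000 190 1500 1558 x1 x2 a3 a4 (by decide +kernel)
      rcases le_total (1000 * x) 1592 with a5 | a5
      · exact near_of 1000 208 1558 1592 x1 x2 a4 a5 (by decide +kernel)
      rcases le_total (1000 * x) 1609 with a6 | a6
      · exact near_of 1000 218 1592 1609 x1 x2 a5 a6 (by decide +kernel)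
      exact near_of 1000 223 1609 1619 x1 x2 a6 x3 (by decide +kernel)
    refine ⟨_, ?_, h2⟩
    filter_upwards [self_mem_nhdsWithin, mem_nhdsWithin_of_mem_nhds h1] with y y1 y2
    exact ⟨y2, y1.2⟩
  filter_upwards [measure_eq_zero_iff_ae_notMem.1 this] with x h x1 x2 ξ h1 h2
  exact h ⟨⟨x1, x2⟩, ξ, h1, h2⟩

end Pool.Agent.P.MP_0ff3a5_nt.Zn
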