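import Pool.Agent.P.MP_0ff3a5_nt.Zn.Meas

/-! The recursion between the growth rates of three consecutive orders. -/

namespace Pool.Agent.P.MP_0ff3a5_nt.Zn

open Polynomial Finset Filter Topology MeasureTheory Metric

theorem ev_lt {x y c : ℝ} (C : ℝ) (h0 : 0 ≤ x) (h : x < y) (hc : 0 < c) :
    ∀ᶠ j : ℕ in atTop, C * x ^ j < c * y ^ j := by
  have hy : 0 < y := h0.trans_lt h
  have h2 := (tendsto_pow_atTop_nhds_zero_of_lt_one (div_nonneg h0 hy.le)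
    ((div_lt_one hy).2 h)).const_mul C
  rw [mul_zero] at h2
  filter_upwards [h2.eventually (gt_mem_nhds hc)] with j hj
  rwa [div_pow, ← mul_div_assoc, div_lt_iff₀ (by positivity)] at hj

namespace Sys

variable {D : Type} (s : Sys D) {k j : ℕ} {b b₀ x₀ ε u : ℝ}

/-- points where the first free jet is large -/
def T (k : ℕ) (x₀ ε u : ℝ) (P : ℝ[X]) : Set ℝ :=
  ball x₀ ε ∩ ({x | Near s.κ s.B (k + 1) P x} ∩ {x | u ^ 9 < |jt (k + 1) P x|})

/-- points where the upper part of the polynomial has a higher order than the polynomial -/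
def U (k j : ℕ) (P : ℝ[X]) : Set ℝ := {y | Near s.κ (2 * s.B) k P y} ∩
  ⋂ (P₁) (Q) (_ : Adm (2 * s.H) (s.r * j) P₁) (_ : P = P₁ + X ^ (s.r * j) * Q),
    {y | Near s.κ ((2 * k + 4 : ℕ) * s.B) (k + 1) Q y}

theorem cover (hb : 1 ≤ b) (h0 : b₀ < b) (hab : b ^ 2 ≤ s.a ^ 3)
    (hV : ∀ y ∈ ball x₀ (2 * ε), s.a ≤ y ∧ y ≤ b₀) (hu : u = s.a ^ (s.r * j))
    (u1 : 10 * (k + 2) * (2 * s.H * (b - b₀)⁻¹ ^ (k + 2 + 1)) ≤ u) (u2 : 2 * (k + 2) ≤ u)
    (u3 : s.B * s.κ ^ k ≤ u) (u4 : 5 ≤ ε * u) {P : ℝ[X]} (hP : s.Ok (j + 9 * j) P) :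
    volume (s.T k x₀ ε u P) ≤
      ENNReal.ofReal (4 * (s.B * s.κ ^ k) / u) * volume (s.U k j P ∩ ball x₀ (2 * ε)) := by
  have hk : (0 : ℝ) ≤ k := k.cast_nonneg
  have u6 : 4 ≤ u := by linarith
  have u0 : 0 < u := by linarith
  have hB := s.Bκ1 k
  refine vitali (fun x => u / |jt (k + 1) P x|) (by positivity) fun x ⟨x1, x2, x3⟩ => ?_
  have x4 : u ^ 9 < |jt (k + 1) P x| := x3
  have x5 : 0 < |jt (k + 1) P x| := lt_trans (by positivity) x4
  have l0 : 0 < u / |jt (k + 1) P x| := by positivity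
  have l1 : |jt (k + 1) P x| * (u / |jt (k + 1) P x|) = u := mul_div_cancel₀ _ x5.ne'
  have l2 : u / |jt (k + 1) P x| * u ^ 8 ≤ 1 := by
    rw [div_mul_eq_mul_div, div_le_one x5]; linarith
  have hx : ∀ y, |y - x| ≤ 5 * (u / |jt (k + 1) P x|) → y ∈ ball x₀ (2 * ε) := fun y hy => by
    have h1 : u ≤ u ^ 8 := le_self_pow₀ (by linarith) (by norm_num)
    have h2 : 0 < ε := pos_of_mem_ball x1
    have h3 : |x - x₀| < ε := x1
    refine (abs_sub_le y x x₀).trans_lt ?_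
    nlinarith [mul_le_mul_of_nonneg_left h1 h2.le]
  have hs := shape (M := 2 * s.H * (b - b₀)⁻¹ ^ (k + 2 + 1) * u ^ 15) s.κ1 s.B1 l0.le x2
    (fun y hy => ?_) ?_ ?_
  · generalize u / |jt (k + 1) P x| = ρ at *
    refine ⟨l0, ?_, fun y hy => ?_, fun y hy hy' => ?_⟩
    · exact le_trans (le_mul_of_one_le_right l0.le (one_le_pow₀ (by linarith))) l2
    · have y1 : |y - x| ≤ ρ := hy
      have y2 := hx y (by linarith)
      obtain ⟨y3, y4⟩ := hs.1 y y1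
      refine ⟨⟨y3, ?_⟩, y2⟩
      simp only [Set.mem_iInter]
      rintro P₁ Q h1 rfl
      have hκ := s.κ0
      obtain ⟨y5, y6⟩ := up s.ha s.hκ (hV y y2).1 (B := 2 * s.B) (by linarith [s.hB, s.B0]) _ _
        (2 * (k + 1) * u) h1 (by positivity) y3
      rw [l1] at y4
      have y7 := y6 (by linarith)
      rw [← hu, mul_div_cancel_right₀ _ u0.ne'] at y7
      refine near_succ (y5.mono hκ.le ?_) (y7.trans ?_) <;> push_cast <;> nlinarith [s.B0]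
    · have := hs.2 y hy' hy.2.1
      rw [div_mul_eq_mul_div, le_div_iff₀ u0, ← l1]
      nlinarith
  · refine (Adm.jt_le hb h0 (by linarith [(hV y (hx y hy)).1, s.ha]) (hV y (hx y hy)).2 _ _ hP.1
      _).trans (mul_le_mul_of_nonneg_left ?_ (by have := s.hH; have := sub_pos.2 h0; positivity))
    calc b ^ (s.r * (j + 9 * j)) = (b ^ 2) ^ (5 * (s.r * j)) := by rw [← pow_mul]; congr 1; ring
      _ ≤ (s.a ^ 3) ^ (5 * (s.r * j)) := by gcongr
      _ = _ := by rw [hu, ← pow_mul, ← pow_mul]; congr 1; ring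
  · generalize u / |jt (k + 1) P x| = ρ at *
    calc _ = 10 * (k + 2) * (2 * s.H * (b - b₀)⁻¹ ^ (k + 2 + 1)) * u ^ 7 * (ρ * u ^ 8) := by ring
      _ ≤ u * u ^ 7 * 1 := by gcongr
      _ ≤ u ^ 9 := by rw [mul_one, ← pow_succ']; exact pow_le_pow_right₀ (by linarith) (by norm_num)
      _ ≤ _ := x4.le
  · rw [l1]
    refine le_trans ?_ l2
    rw [mul_comm]
    refine mul_le_mul_of_nonneg_left ?_ l0.le
    calc _ ≤ u * (u * u * u) := mul_le_mul (by linarith) (by nlinarith) (by positivity) u0.le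
      _ = u ^ 4 := by ring
      _ ≤ _ := pow_le_pow_right₀ (by linarith) (by norm_num)

variable [Fintype D] {x C θ θ₁ θ₂ θ₃ : ℝ}

theorem U_le : s.E (j + 9 * j) (fun P => ind (x ∈ s.U k j P)) ≤
    7 ^ k * s.W k j x * ((4 * k + 11) ^ (k + 1) * s.W (k + 1) (9 * j) x) := by
  have h1 := s.E_le_split (m := j) (n := 9 * j) (k := k) (x := x) (q := fun P => x ∈ s.U k j P)
    (G := fun Q => ind (Near s.κ ((2 * k + 4 : ℕ) * s.B) (k + 1) (Q + 0) x)) 2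
    (fun _ => ind_nonneg) fun P Q hP h => ⟨by simpa using h.1, (ind_pos (by
      have := h.2
      simp only [Set.mem_iInter] at this
      rw [add_zero]
      exact this P Q hP.1 rfl)).ge⟩
  have h2 := s.E_offset (N := 9 * j) (k := k + 1) (x := x) (2 * k + 4) 0
  have := s.W0 (k := k) (N := j) (x := x)
  refine h1.trans (mul_le_mul (le_of_eq (by norm_num)) (h2.trans_eq ?_)
    (s.E_nonneg fun _ => ind_nonneg) (by positivity))
  push_cast
  ring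

theorem W_le_two (hx : x ∈ ball x₀ ε) (hx' : s.a ≤ x) (hu : u = s.a ^ (s.r * j)) :
    s.W (k + 1) (j + 9 * j) x ≤ 5 ^ (k + 1) * s.W (k + 1) (9 * j) x * (7 ^ (k + 2) *
      s.W (k + 2) j x) + s.E (j + 9 * j) fun P => ind (x ∈ s.T k x₀ ε u P) := by
  have h1 := s.E_le_split (m := 9 * j) (n := j) (k := k + 1) (x := x)
    (q := fun P => Near s.κ s.B (k + 1) P x ∧ |jt (k + 1) P x| ≤ u ^ 9)
    (G := fun Q => ind (Near s.κ ((2 : ℕ) * s.B) (k + 2) (Q + 0) x)) 1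
    (fun _ => ind_nonneg) fun P Q hP h => ⟨by simpa using h.1, (ind_pos (by
      have a0 : 0 < s.a := by linarith [s.ha]
      obtain ⟨y1, y2⟩ := up s.ha s.hκ hx' s.hB _ _ (u ^ 9) hP.1 (by rw [hu]; positivity) h.1
      have y3 := y2 (by linarith [h.2, s.Bκ1 (k + 1)])
      rw [hu, ← pow_mul, show s.r * j * 9 = s.r * (9 * j) by ring, div_self (by positivity)] at y3
      rw [add_zero]
      refine near_succ (y1.mono s.κ0.le ?_) (y3.trans ?_) <;> push_cast <;>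
        linarith [s.B0, s.Bκ1 (k + 1)])).ge⟩
  have h2 := s.E_offset (N := j) (k := k + 2) (x := x) 2 0
  have := s.W0 (k := k + 1) (N := 9 * j) (x := x)
  rw [add_comm (9 * j)] at h1
  refine le_trans ?_ (add_le_add_left (h1.trans (mul_le_mul (le_of_eq (by norm_num))
    (h2.trans_eq (by norm_num)) (s.E_nonneg fun _ => ind_nonneg) (by positivity))) _)
  rw [← E_add]
  refine s.E_mono fun P _ => ind_le (add_nonneg ind_nonneg ind_nonneg) fun h => ?_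
  rcases le_or_gt |jt (k + 1) P x| (u ^ 9) with h3 | h3
  · rw [ind_pos ⟨h, h3⟩]; linarith [ind_nonneg (q := x ∈ s.T k x₀ ε u P)]
  · rw [ind_pos (q := x ∈ s.T k x₀ ε u P) ⟨hx, h, h3⟩]; exact le_add_of_nonneg_left ind_nonneg

theorem step_loc (hb : 1 ≤ b) (h0 : b₀ < b) (hab : b ^ 2 ≤ s.a ^ 3) (e0 : 0 < ε)
    (hC : 0 ≤ C) (t1 : 0 < θ₁) (t2 : 0 < θ₂) (t3 : 0 < θ₃) (t0 : 0 < θ)
    (hV : ∀ y ∈ ball x₀ (2 * ε), (s.a ≤ y ∧ y ≤ b₀) ∧ ∀ N, s.W k N y ≤ C * θ₁ ^ N ∧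
      s.W (k + 1) N y ≤ C * θ₂ ^ N ∧ s.W (k + 2) N y ≤ C * θ₃ ^ N)
    (h1 : θ₂ ^ 9 * θ₁ < θ ^ 10 * s.a ^ s.r) (h3 : θ₂ ^ 9 * θ₃ < θ ^ 10) :
    volume ({x | ¬ s.Good (k + 1) θ x} ∩ ball x₀ ε) = 0 := by
  set μ := volume.restrict (ball x₀ (2 * ε)) with hμ
  have : IsFiniteMeasure μ := isFiniteMeasure_restrict.2 measure_ball_lt_top.ne
  have hs : ball x₀ ε ⊆ ball x₀ (2 * ε) := ball_subset_ball (by linarith)
  rw [← Set.inter_eq_left.2 (Set.inter_subset_right.trans hs), ← Measure.restrict_apply'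
    measurableSet_ball, ← hμ, ← measureReal_eq_zero_iff]
  by_contra h4
  have h5 : 0 < μ.real ({x | ¬ s.Good (k + 1) θ x} ∩ ball x₀ ε) :=
    lt_of_le_of_ne measureReal_nonneg (Ne.symm h4)
  have hu : Tendsto (fun j : ℕ => s.a ^ (s.r * j)) atTop atTop := by
    simp only [pow_mul]
    exact tendsto_pow_atTop_atTop_of_one_lt (one_lt_pow₀ s.ha s.hr.ne')
  obtain ⟨j, ⟨⟨j0, u1, u2⟩, u3, u4⟩, j1, j2⟩ := ((((eventually_gt_atTop 0).and
    ((hu.eventually_ge_atTop (10 * (k + 2) * (2 * s.H * (b - b₀)⁻¹ ^ (k + 2 + 1)))).and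
    (hu.eventually_ge_atTop (2 * (k + 2))))).and ((hu.eventually_ge_atTop (s.B * s.κ ^ k)).and
    (hu.eventually_ge_atTop (5 / ε)))).and
    ((ev_lt (5 ^ (k + 1) * 5 ^ (k + 1) * 7 ^ (k + 2) * C * C) (by positivity) h3 one_half_pos).and
    (ev_lt (4 * (s.B * s.κ ^ k) * μ.real Set.univ * 7 ^ k * (4 * k + 11) ^ (k + 1) * C * C)
      (by positivity) h1 (div_pos h5 (by positivity : (0 : ℝ) < 2 * 5 ^ (k + 1)))))).exists
  rw [div_le_iff₀' e0] at u4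
  have a0 : 0 < s.a ^ (s.r * j) := pow_pos (by linarith [s.ha]) _
  have hB := s.Bκ1 k
  have h6 := s.E_markov (μ := μ) (N := j + 9 * j) (s.T k x₀ ε (s.a ^ (s.r * j))) (s.U k j)
    (fun P => measurableSet_ball.inter ((isClosed_near _ _ _ _).measurableSet.inter
      (isOpen_lt continuous_const (continuous_jt _ _).abs).measurableSet))
    (fun P => ((isClosed_near _ _ _ _).inter (isClosed_iInter fun _ => isClosed_iInter fun _ =>
      isClosed_iInter fun _ => isClosed_iInter fun _ => isClosed_near _ _ _ _)).measurableSet)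
    (η := 4 * (s.B * s.κ ^ k) / s.a ^ (s.r * j))
    (M := 7 ^ k * (C * θ₁ ^ j) * ((4 * k + 11) ^ (k + 1) * (C * θ₂ ^ (9 * j)))) (by positivity)
    (fun P hP => ?_) ?_ (θ ^ (j + 9 * j) / (2 * 5 ^ (k + 1)))
  · have h7 : μ.real ({x | ¬ s.Good (k + 1) θ x} ∩ ball x₀ ε) ≤ μ.real {x | θ ^ (j + 9 * j) /
        (2 * 5 ^ (k + 1)) ≤ s.E (j + 9 * j) fun P => ind (x ∈ s.T k x₀ ε (s.a ^ (s.r * j)) P)} := by
      refine measureReal_mono fun x ⟨x1, x2⟩ => ?_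
      have x3 := hV x (hs x2)
      have x4 : θ ^ (j + 9 * j) < 5 ^ (k + 1) * s.W (k + 1) (j + 9 * j) x :=
        lt_of_not_ge fun h => x1 ⟨_, by omega, h⟩
      have x5 := s.W_le_two (k := k) x2 x3.1.1 (rfl : s.a ^ (s.r * j) = _)
      have x6 : 5 ^ (k + 1) * s.W (k + 1) (9 * j) x * (7 ^ (k + 2) * s.W (k + 2) j x) ≤
          5 ^ (k + 1) * (C * θ₂ ^ (9 * j)) * (7 ^ (k + 2) * (C * θ₃ ^ j)) := by
        have := s.W0 (k := k + 2) (N := j) (x := x)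
        gcongr
        exacts [(x3.2 _).2.1, (x3.2 _).2.2]
      rw [mul_pow, ← pow_mul, ← pow_mul, show 10 * j = j + 9 * j by ring] at j1
      rw [Set.mem_ofPred_eq, div_le_iff₀ (by positivity)]
      nlinarith [mul_le_mul_of_nonneg_left (x5.trans (add_le_add_left x6 _))
        (by positivity : (0 : ℝ) ≤ 5 ^ (k + 1))]
    have h8 := (mul_le_mul_of_nonneg_left h7 (by positivity)).trans h6
    rw [div_mul_eq_mul_div _ (s.a ^ _), le_div_iff₀ a0] at h8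
    rw [mul_pow, mul_pow, ← pow_mul, ← pow_mul, ← pow_mul, show 10 * j = j + 9 * j by ring] at j2
    exact absurd (h8.trans_eq (by ring) |>.trans_lt j2) (not_lt.2 (le_of_eq (by ring)))
  · have := s.cover hb h0 hab (fun y hy => (hV y hy).1) rfl u1 u2 u3 u4 hP
    rw [← Measure.restrict_apply' measurableSet_ball] at this
    have h7 := ENNReal.toReal_mono (ENNReal.mul_ne_top ENNReal.ofReal_ne_top (measure_ne_top _ _))
      ((Measure.restrict_apply_le (ball x₀ (2 * ε)) _).trans this)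
    rwa [ENNReal.toReal_mul, ENNReal.toReal_ofReal (by positivity)] at h7
  · filter_upwards [ae_restrict_mem measurableSet_ball] with x hx
    have := s.W0 (k := k + 1) (N := 9 * j) (x := x)
    refine s.U_le.trans ?_
    gcongr
    exacts [((hV x hx).2 _).1, ((hV x hx).2 _).2.1]

/-- growth rates that hold at almost every parameter -/
def M (b₀ : ℝ) (k : ℕ) : Set ℝ := {θ | 0 < θ ∧ ∀ᵐ x, x ∈ Set.Ioo s.a b₀ → s.Good k θ x}

theorem step (hb : 1 ≤ b) (h0 : b₀ < b) (hab : b ^ 2 ≤ s.a ^ 3) (t0 : 0 < θ) (t1 : θ₁ ∈ s.M b₀ k)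
    (t2 : θ₂ ∈ s.M b₀ (k + 1)) (t3 : θ₃ ∈ s.M b₀ (k + 2))
    (h1 : θ₂ ^ 9 * θ₁ < θ ^ 10 * s.a ^ s.r) (h3 : θ₂ ^ 9 * θ₃ < θ ^ 10) : θ ∈ s.M b₀ (k + 1) := by
  refine ⟨t0, ?_⟩
  have : volume {x | x ∈ Set.Ioo s.a b₀ ∧ s.Good k θ₁ x ∧ s.Good (k + 1) θ₂ x ∧
      s.Good (k + 2) θ₃ x ∧ ¬ s.Good (k + 1) θ x} = 0 := by
    refine measure_null_of_locally_null _ fun x ⟨x0, x1, x2, x3, _⟩ => ?_
    obtain ⟨C₁, c1, d1⟩ := x1.unif s t1.1 x0.1
    obtain ⟨C₂, c2, d2⟩ := x2.unif s t2.1 x0.1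
    obtain ⟨C₃, c3, d3⟩ := x3.unif s t3.1 x0.1
    obtain ⟨ε, e0, e1⟩ := Metric.eventually_nhds_iff_ball.1
      ((isOpen_Ioo.eventually_mem x0).and (d1.and (d2.and d3)))
    have e2 : 0 < ε / 2 := by positivity
    refine ⟨_, ?_, s.step_loc (k := k) (x₀ := x) (C := C₁ + C₂ + C₃) hb h0 hab e2
      (by positivity) t1.1 t2.1 t3.1 t0 (fun y hy => ?_) h1 h3⟩
    · exact inter_mem (mem_of_superset self_mem_nhdsWithin fun y hy => hy.2.2.2.2)
        (mem_nhdsWithin_of_mem_nhds (ball_mem_nhds _ e2))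
    · obtain ⟨y0, y1, y2, y3⟩ := e1 y (ball_subset_ball (by linarith) hy)
      have := t1.1; have := t2.1; have := t3.1
      refine ⟨⟨y0.1.le, y0.2.le⟩, fun N => ⟨(y1 N).trans ?_, (y2 N).trans ?_, (y3 N).trans ?_⟩⟩ <;>
        gcongr <;> linarith
  filter_upwards [t1.2, t2.2, t3.2, measure_eq_zero_iff_ae_notMem.1 this] with x x1 x2 x3 x4 x0
  by_contra h
  exact x4 ⟨x0, x1 x0, x2 x0, x3 x0, h⟩

theorem M_ne (b₀ : ℝ) (k : ℕ) : (s.M b₀ k).Nonempty :=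
  ⟨s.A + 1, by linarith [s.A0], .of_forall fun _ _ => s.good_A (by linarith)⟩

theorem M_bdd (b₀ : ℝ) (k : ℕ) : BddBelow (s.M b₀ k) := ⟨0, fun _ h => h.1.le⟩

theorem mem_M (h : sInf (s.M b₀ k) < θ) : θ ∈ s.M b₀ k := by
  obtain ⟨θ', h1, h2⟩ := exists_lt_of_csInf_lt (s.M_ne b₀ k) h
  exact ⟨h1.1.trans h2, h1.2.mono fun x hx x0 => (hx x0).mono s h1.1.le h2.le⟩

theorem inf_step (hb : 1 ≤ b) (h0 : b₀ < b) (hab : b ^ 2 ≤ s.a ^ 3) (k : ℕ) :
    sInf (s.M b₀ (k + 1)) ≤ max (sInf (s.M b₀ k) / s.a ^ s.r) (sInf (s.M b₀ (k + 2))) := by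
  by_contra h
  have a0 : 0 < s.a ^ s.r := pow_pos (by linarith [s.ha]) _
  rw [not_le, max_lt_iff, div_lt_iff₀ a0] at h
  have h1 : 0 ≤ sInf (s.M b₀ (k + 2)) := le_csInf (s.M_ne _ _) fun _ h => h.1.le
  obtain ⟨θ₁, a1, a2⟩ := exists_between h.1
  obtain ⟨θ₃, a3, a4⟩ := exists_between h.2
  set t := sInf (s.M b₀ (k + 1)) with ht
  have t0 : 0 < t := h1.trans_lt h.2
  have c1 : ∀ᶠ e in 𝓝 (0 : ℝ), (t + e) ^ 9 * θ₁ < (t - e) ^ 10 * s.a ^ s.r :=
    ContinuousAt.eventually_lt (by fun_prop) (by fun_prop) (by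
      simp only [add_zero, sub_zero]; nlinarith [pow_pos t0 9])
  have c2 : ∀ᶠ e in 𝓝 (0 : ℝ), (t + e) ^ 9 * θ₃ < (t - e) ^ 10 :=
    ContinuousAt.eventually_lt (by fun_prop) (by fun_prop) (by
      simp only [add_zero, sub_zero]; nlinarith [pow_pos t0 9])
  obtain ⟨e, ⟨e1, e2, e3⟩, e0⟩ := (((c1.and (c2.and (gt_mem_nhds t0))).filter_mono
    nhdsWithin_le_nhds).and (self_mem_nhdsWithin (s := Set.Ioi (0 : ℝ)))).exists
  have e4 : 0 < e := e0
  have := csInf_le (s.M_bdd _ _) (s.step hb h0 hab (sub_pos.2 e3) (s.mem_M a1)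
    (s.mem_M (by linarith)) (s.mem_M a3) e1 e2)
  linarith

/-- the growth rate of almost double roots at almost every parameter -/
theorem good_two (hb : 1 ≤ b) (h0 : b₀ < b) (hab : b ^ 2 ≤ s.a ^ 3)
    (h1 : s.A / (s.a ^ s.r) ^ 2 < θ) (h2 : s.m₀ < θ) : θ ∈ s.M b₀ 2 := by
  have a1 : 1 < s.a ^ s.r := one_lt_pow₀ s.ha s.hr.ne'
  have t0 : ∀ k, 0 ≤ sInf (s.M b₀ k) := fun k => le_csInf (s.M_ne _ _) fun _ h => h.1.le
  have b1 : ∀ k, sInf (s.M b₀ k) ≤ max (s.A / (s.a ^ s.r) ^ k) (sInf (s.M b₀ (k + 1))) := by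
    intro k
    induction k with
    | zero =>
      refine le_max_of_le_left (le_of_forall_gt_imp_ge_of_dense fun θ h => csInf_le (s.M_bdd _ _) ?_)
      rw [pow_zero, div_one] at h
      exact ⟨s.A0.trans_lt h, .of_forall fun _ _ => s.good_A h⟩
    | succ k ih =>
      rcases le_max_iff.1 (s.inf_step hb h0 hab k) with h | h
      · rcases le_max_iff.1 ih with h' | h'
        · refine le_max_of_le_left (h.trans ?_)
          rw [pow_succ, ← div_div]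
          gcongr
        · rw [le_div_iff₀ (by linarith)] at h
          exact le_max_of_le_right (by nlinarith [t0 (k + 1), t0 (k + 1 + 1)])
      · exact le_max_of_le_right h
  have b2 : ∀ i, sInf (s.M b₀ 2) ≤ max (s.A / (s.a ^ s.r) ^ 2) (sInf (s.M b₀ (2 + i))) := by
    intro i
    induction i with
    | zero => exact le_max_right _ _
    | succ i ih =>
      refine ih.trans (max_le (le_max_left _ _) ((b1 _).trans (max_le_max_right _ ?_)))
      exact div_le_div_of_nonneg_left s.A0 (by positivity) (pow_le_pow_right₀ a1.le (by omega))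
  obtain ⟨K, hK⟩ := s.good_top b₀
  obtain ⟨θ', h3, h4⟩ := exists_between h2
  exact s.mem_M ((b2 K).trans_lt (max_lt h1 ((csInf_le (s.M_bdd _ _) ⟨s.m₀0.trans_lt h3,
    .of_forall fun x hx => hK _ h3 x hx.1.le hx.2.le⟩).trans_lt h4)))

end Sys

end Pool.Agent.P.MP_0ff3a5_nt.Zn
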