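import Pool.Agent.P.MP_0ff3a5_nt.Zn.Count

/-! The system given by an elementary symmetric function of a trigonometric polynomial. -/

namespace Pool.Agent.P.MP_0ff3a5_nt.Zn

open Polynomial Finset Real Filter Topology MeasureTheory

variable {J : Type} [Fintype J] [DecidableEq J] (v : J → ℤ) (ψ : J → ℝ) (o : J)

/-- weight of a digit at a position -/
def wt {r : ℕ} (S : Finset (Fin r)) (i : Fin r) (h : J) : ℝ :=
  if i ∈ S then ψ h else if h = o then 1 else 0

theorem exists_sys (hv : Function.Injective v) (v0 : v o = 0) (ψ0 : ψ o = 0) {H a : ℝ}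
    (hH : ∀ h, |(v h : ℝ)| ≤ H) (hψ : ∀ θ : ℝ, -(1 / 1000) ≤ cos θ →
      ∃ y : ℝ, 1 ≤ y ∧ ∑ h, (ψ h : ℂ) * Complex.exp (v h * θ * Complex.I) = y)
    {r t : ℕ} (hr : 0 < r) (ht : t ≤ r) (a1 : 1 < a) (a2 : a ≤ 2) :
    ∃ s : Sys ({S : Finset (Fin r) // S.card = t} × (Fin r → J)), s.r = r ∧ s.a = a ∧ s.Maj ∧
      s.A = (∑ h, |ψ h|) ^ (2 * t) ∧ s.m₀ ≤ (∑ h, ψ h ^ 2) ^ t / r.choose t := by
  classical
  have H0 : 0 ≤ H := (abs_nonneg _).trans (hH o)
  have k0 : 0 < (a - 1)⁻¹ := inv_pos.2 (by linarith)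
  have C0 : (0 : ℝ) < r.choose t := by exact_mod_cast Nat.choose_pos ht
  have hc : (Fintype.card {S : Finset (Fin r) // S.card = t} : ℝ) = r.choose t := by simp
  refine ⟨{ c := fun d => (r.choose t : ℝ)⁻¹ * ∏ i, wt ψ o d.1.1 i (d.2 i)
            p := fun d => ofFn r fun i => (v (d.2 i) : ℝ)
            r := r
            H := H
            a := a
            κ := (a - 1)⁻¹
            B := 2 * H * (a - 1)⁻¹ + 1
            adm := fun d => ⟨fun i => ?_, fun i hi => ofFn_coeff_eq_zero_of_ge _ hi⟩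
            int := fun d => ?_
            hr := hr
            hH := H0
            ha := a1
            hκ := inv_mul_cancel₀ (by linarith)
            κ1 := (one_le_inv₀ (by linarith)).2 (by linarith)
            hB := by linarith
            B1 := le_add_of_nonneg_left (by positivity) }, rfl, rfl, fun f hf => ?_, ?_, ?_⟩
  · rcases lt_or_ge i r with h | h
    · rw [ofFn_coeff_eq_val_of_lt _ h]; exact hH _
    · rw [ofFn_coeff_eq_zero_of_ge _ h, abs_zero]; exact H0
  · rw [ofFn_eq_sum_monomial]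
    exact sum_mem fun i _ => (lifts_iff_liftsRing _ _).1 (monomial_mem_lifts _ ⟨_, rfl⟩)
  · choose y y1 y2 using fun i : Fin r => hψ _ (hf i i.2)
    have e1 : ∀ d : Fin r → J, f (ofFn r fun i => (v (d i) : ℝ)) =
        ∑ i : Fin r, v (d i) * f (X ^ (i : ℕ)) := by
      intro d
      rw [ofFn_eq_sum_monomial, map_sum]
      exact sum_congr rfl fun i _ => by rw [← smul_X_eq_monomial, map_smul, smul_eq_mul]
    have e2 : ∀ S : Finset (Fin r), ∑ d : Fin r → J, ((∏ i, wt ψ o S i (d i) : ℝ) : ℂ) *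
        Complex.exp (f (ofFn r fun i => (v (d i) : ℝ)) * Complex.I) = (∏ i ∈ S, y i : ℝ) := by
      intro S
      simp only [e1]
      push_cast
      simp only [sum_mul, Complex.exp_sum, ← prod_mul_distrib]
      rw [← Fintype.prod_sum fun (i : Fin r) h => (wt ψ o S i h : ℂ) *
        Complex.exp (v h * f (X ^ (i : ℕ)) * Complex.I), ← Fintype.prod_ite_mem S]
      refine prod_congr rfl fun i _ => ?_
      by_cases hi : i ∈ S
      · simp only [wt, hi, if_true, y2]
      · simp [wt, hi, apply_ite, v0]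
    simp only [Fintype.sum_prod_type, Complex.ofReal_mul, mul_assoc, ← mul_sum, e2]
    rw [← Complex.ofReal_sum, ← Complex.ofReal_mul, Complex.norm_real]
    refine le_trans ?_ (le_abs_self _)
    rw [le_inv_mul_iff₀ C0, ← hc, ← nsmul_eq_mul, ← card_univ]
    exact card_nsmul_le_sum _ _ _ fun S _ => one_le_prod fun i _ => y1 i
  · have e : ∀ S : Finset (Fin r), ∑ d : Fin r → J, ∏ i, |wt ψ o S i (d i)| =
        (∑ h, |ψ h|) ^ S.card := by
      intro S
      rw [← Fintype.prod_sum fun (i : Fin r) h => |wt ψ o S i h|, ← prod_const,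
        ← Fintype.prod_ite_mem S]
      refine prod_congr rfl fun i _ => ?_
      by_cases hi : i ∈ S <;> simp [wt, hi, apply_ite]
    simp only [Sys.A, Fintype.sum_prod_type, abs_mul, abs_prod, ← mul_sum, e, abs_inv,
      abs_of_pos C0]
    rw [sum_congr rfl fun (S : {S : Finset (Fin r) // S.card = t}) _ => by rw [S.2], sum_const,
      card_univ, nsmul_eq_mul, hc, inv_mul_cancel_left₀ C0.ne', ← pow_mul, mul_comm]
  · have e : ∀ S S' : Finset (Fin r), ∑ d : Fin r → J, (∏ i, |wt ψ o S i (d i)|) *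
        ∏ i, |wt ψ o S' i (d i)| = if S = S' then (∑ h, ψ h ^ 2) ^ S.card else 0 := by
      intro S S'
      simp only [← prod_mul_distrib]
      rw [← Fintype.prod_sum fun (i : Fin r) h => |wt ψ o S i h| * |wt ψ o S' i h|]
      split_ifs with h
      · rw [← h, ← prod_const, ← Fintype.prod_ite_mem S]
        refine prod_congr rfl fun i _ => ?_
        by_cases hi : i ∈ S <;> simp [wt, hi, sq]
      · obtain ⟨i, hi⟩ := not_forall.1 (mt Finset.ext h)
        refine prod_eq_zero (mem_univ i) ?_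
        by_cases h1 : i ∈ S <;> by_cases h2 : i ∈ S' <;> simp_all [wt, apply_ite]
    have e1 : ∀ d d' : Fin r → J, ind ((ofFn r fun i => (v (d i) : ℝ)) =
        ofFn r fun i => (v (d' i) : ℝ)) = if d = d' then 1 else 0 := by
      intro d d'
      split_ifs with h
      · rw [h, ind_pos rfl]
      · exact ind_neg fun h' => h (funext fun i =>
          hv (Int.cast_injective (α := ℝ) (congrFun (injective_ofFn r h') i)))
    simp only [Sys.m₀, Fintype.sum_prod_type, abs_mul, abs_prod, e1, mul_ite, mul_one, mul_zero,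
      sum_ite_eq, mem_univ, if_true, abs_inv, abs_of_pos C0, mul_mul_mul_comm _ _ _⁻¹]
    refine le_of_eq ((sum_congr rfl fun S _ => sum_comm).trans ?_)
    simp only [← mul_sum, e, Subtype.val_inj, sum_ite_eq, mem_univ, if_true]
    rw [sum_congr rfl fun (S : {S : Finset (Fin r) // S.card = t}) _ => by rw [S.2], sum_const,
      card_univ, nsmul_eq_mul, hc]
    field_simp

theorem null_near (hv : Function.Injective v) (v0 : v o = 0) (ψ0 : ψ o = 0) {H x : ℝ}
    (hH : ∀ h, |(v h : ℝ)| ≤ H) (hψ : ∀ θ : ℝ, -(1 / 1000) ≤ cos θ →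
      ∃ y : ℝ, 1 ≤ y ∧ ∑ h, (ψ h : ℂ) * Complex.exp (v h * θ * Complex.I) = y)
    {r t : ℕ} (hr : 0 < r) (x1 : 1 < x) (x2 : x < 2) (h1 : (∑ h, |ψ h|) ^ (2 * t) < x ^ r)
    (h2 : (∑ h, ψ h ^ 2) ^ t * x ^ r < r.choose t) :
    ∃ U ∈ 𝓝 x, volume {y | y ∈ U ∧ ∃ ξ, 0 < ξ ∧ Sv ξ y} = 0 := by
  have x0 : 0 < x ^ r := by positivity
  have C0 : (0 : ℝ) < r.choose t := lt_of_le_of_lt (by positivity) h2
  have ht : t ≤ r := by
    by_contra h
    simp [Nat.choose_eq_zero_of_lt (not_le.1 h)] at C0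
  have c1 : ∀ᶠ e in 𝓝 (0 : ℝ), 1 < x - e :=
    ContinuousAt.eventually_lt (by fun_prop) (by fun_prop) (by simpa)
  have c2 : ∀ᶠ e in 𝓝 (0 : ℝ), x + 2 * e < 2 :=
    ContinuousAt.eventually_lt (by fun_prop) (by fun_prop) (by simpa)
  have c3 : ∀ᶠ e in 𝓝 (0 : ℝ), (x + 2 * e) ^ 2 < (x - e) ^ 3 :=
    ContinuousAt.eventually_lt (by fun_prop) (by fun_prop) (by simp; nlinarith [sq_nonneg x, mul_pos (sub_pos.2 x1) (pow_pos (one_pos.trans x1) 2)])
  have c4 : ∀ᶠ e in 𝓝 (0 : ℝ), (∑ h, |ψ h|) ^ (2 * t) * ((x + 2 * e) ^ r) ^ 2 <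
      ((x - e) ^ r) ^ 3 := ContinuousAt.eventually_lt (by fun_prop) (by fun_prop) (by
    simp only [mul_zero, add_zero, sub_zero]; nlinarith [pow_pos x0 2])
  have c5 : ∀ᶠ e in 𝓝 (0 : ℝ), (∑ h, ψ h ^ 2) ^ t / r.choose t * ((x + 2 * e) ^ r) ^ 2 <
      (x - e) ^ r := ContinuousAt.eventually_lt (by fun_prop) (by fun_prop) (by
    simp only [mul_zero, add_zero, sub_zero]
    rw [div_mul_eq_mul_div, div_lt_iff₀ C0]
    nlinarith)
  obtain ⟨e, ⟨e1, e2, e3, e4, e5⟩, e0⟩ := (((c1.and (c2.and (c3.and (c4.and c5)))).filter_mono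
    nhdsWithin_le_nhds).and (self_mem_nhdsWithin (s := Set.Ioi (0 : ℝ)))).exists
  have e6 : 0 < e := e0
  obtain ⟨s, s1, s2, s3, s4, s5⟩ := exists_sys v ψ o hv v0 ψ0 hH hψ hr ht e1 (by linarith)
  refine ⟨_, Ioo_mem_nhds (by linarith) (by linarith), s.null (b := x + 2 * e) (b₀ := x + e) s3
    (by linarith) e2.le (by linarith) (by rw [s2]; exact e3.le) (by rwa [s1, s2, s4]) ?_⟩
  rw [s1, s2]
  exact (mul_le_mul_of_nonneg_right s5 (sq_nonneg _)).trans_lt e5

end Pool.Agent.P.MP_0ff3a5_nt.Zn
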