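import Pool.Agent.P.MP_0ff3a5_nt.Zn.Jet

/-! Weighted counts of almost roots among differences of block polynomials. -/

namespace Pool.Agent.P.MP_0ff3a5_nt.Zn

open Polynomial Finset Filter Topology

open Classical in
/-- indicator of a proposition -/
noncomputable def ind (q : Prop) : ℝ := if q then 1 else 0

theorem ind_nonneg {q : Prop} : 0 ≤ ind q := by unfold ind; split_ifs <;> norm_num

theorem ind_le_one {q : Prop} : ind q ≤ 1 := by unfold ind; split_ifs <;> norm_num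

theorem ind_pos {q : Prop} (h : q) : ind q = 1 := if_pos h

theorem ind_neg {q : Prop} (h : ¬ q) : ind q = 0 := if_neg h

theorem ind_le {q : Prop} {y : ℝ} (h0 : 0 ≤ y) (h : q → 1 ≤ y) : ind q ≤ y := by
  by_cases hq : q
  · rw [ind_pos hq]; exact h hq
  · rw [ind_neg hq]; exact h0

theorem ind_mono {q q' : Prop} (h : q → q') : ind q ≤ ind q' :=
  ind_le ind_nonneg fun hq => (ind_pos (h hq)).ge

theorem ind_le_mul {q q₁ q₂ : Prop} (h : q → q₁ ∧ q₂) : ind q ≤ ind q₁ * ind q₂ :=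
  ind_le (mul_nonneg ind_nonneg ind_nonneg) fun hq => by
    rw [ind_pos (h hq).1, ind_pos (h hq).2, mul_one]

section cell
variable {ι G : Type} [Fintype ι] (w : ι → ℝ)

theorem cell_eq (Z : Finset G) (f f' : ι → G) (h : ∀ i, f i ∈ Z) :
    ∑ z ∈ Z, (∑ i, w i * ind (f i = z)) * (∑ j, w j * ind (f' j = z)) =
      ∑ i, ∑ j, w i * w j * ind (f i = f' j) := by
  simp only [sum_mul_sum]
  rw [sum_comm]
  refine sum_congr rfl fun i _ => ?_
  rw [sum_comm]
  refine sum_congr rfl fun j _ => ?_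
  rw [sum_eq_single_of_mem (f i) (h i) fun z _ hz => by rw [ind_neg hz.symm]; ring, ind_pos rfl,
    mul_one, mul_assoc, eq_comm (a := f i)]

theorem cell (f f' : ι → G) : 2 * ∑ i, ∑ j, w i * w j * ind (f i = f' j) ≤
    ∑ i, ∑ j, w i * w j * ind (f i = f j) + ∑ i, ∑ j, w i * w j * ind (f' i = f' j) := by
  classical
  have h1 : ∀ i, f i ∈ univ.image f ∪ univ.image f' := by simp
  have h2 : ∀ i, f' i ∈ univ.image f ∪ univ.image f' := by simp
  rw [← cell_eq w _ f f' h1, ← cell_eq w _ f f h1, ← cell_eq w _ f' f' h2, mul_sum,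
    ← sum_add_distrib]
  exact sum_le_sum fun z _ => by
    nlinarith [sq_nonneg (∑ i, w i * ind (f i = z) - ∑ j, w j * ind (f' j = z))]

theorem offset {k : ℕ} (hw : ∀ i, 0 ≤ w i) (x : ι → Fin k → ℝ) (o : Fin k → ℝ) (R : ℕ) :
    ∑ i, ∑ j, w i * w j * ind (∀ l, |x i l - x j l + o l| ≤ R) ≤
      (2 * R + 3) ^ k * ∑ i, ∑ j, w i * w j * ind (∀ l, |x i l - x j l| ≤ 1) := by
  set f : ι → Fin k → ℤ := fun i l => ⌊x i l⌋ with hf
  set T := Fintype.piFinset fun l : Fin k => Icc (-(R + 1 : ℤ) - ⌊o l⌋) (R + 1 - ⌊o l⌋)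
  have hT : (T.card : ℝ) = (2 * R + 3) ^ k := by
    have : ∀ l : Fin k, (Icc (-(R + 1 : ℤ) - ⌊o l⌋) (R + 1 - ⌊o l⌋)).card = 2 * R + 3 := by
      intro l; rw [Int.card_Icc]; omega
    simp only [T, Fintype.card_piFinset, this]
    simp
  calc _ ≤ ∑ i, ∑ j, ∑ e ∈ T, w i * w j * ind (f i = f j + e) := by
        refine sum_le_sum fun i _ => sum_le_sum fun j _ => ?_
        rw [← mul_sum]
        refine mul_le_mul_of_nonneg_left (ind_le (sum_nonneg fun _ _ => ind_nonneg) fun h => ?_)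
          (mul_nonneg (hw i) (hw j))
        refine le_trans (ind_pos (by simp)).ge (single_le_sum (a := f i - f j)
          (f := fun e => ind (f i = f j + e)) (fun _ _ => ind_nonneg) ?_)
        refine Fintype.mem_piFinset.2 fun l => mem_Icc.2 ?_
        have h1 := abs_le.1 (h l)
        have a1 := Int.floor_le (x i l)
        have a2 := Int.lt_floor_add_one (x i l)
        have a3 := Int.floor_le (x j l)
        have a4 := Int.lt_floor_add_one (x j l)
        have a5 := Int.floor_le (o l)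
        have a6 := Int.lt_floor_add_one (o l)
        have b1 : ((-(R + 2 : ℤ) - ⌊o l⌋ : ℤ) : ℝ) < (⌊x i l⌋ - ⌊x j l⌋ : ℤ) := by
          push_cast; linarith
        have b2 : ((⌊x i l⌋ - ⌊x j l⌋ : ℤ) : ℝ) < (R + 1 - ⌊o l⌋ : ℤ) := by
          push_cast; linarith
        rw [Int.cast_lt] at b1 b2
        simp only [hf, Pi.sub_apply]
        omega
    _ = ∑ e ∈ T, ∑ i, ∑ j, w i * w j * ind (f i = f j + e) := by
        rw [sum_comm (s := T)]
        exact sum_congr rfl fun i _ => sum_comm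
    _ ≤ ∑ e ∈ T, ∑ i, ∑ j, w i * w j * ind (∀ l, |x i l - x j l| ≤ 1) := by
        refine sum_le_sum fun e _ => le_trans (b := ∑ i, ∑ j, w i * w j * ind (f i = f j)) ?_ ?_
        · have := cell w f fun j => f j + e
          simp only [add_left_inj] at this
          linarith
        · refine sum_le_sum fun i _ => sum_le_sum fun j _ => mul_le_mul_of_nonneg_left
            (ind_mono fun h l => ?_) (mul_nonneg (hw i) (hw j))
          exact (Int.abs_sub_lt_one_of_floor_eq_floor (congrFun h l)).le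
    _ = _ := by rw [sum_const, nsmul_eq_mul, hT]

end cell

/-- a weighted family of digit blocks, with the constants of a parameter range -/
structure Sys (D : Type) where
  c : D → ℝ
  p : D → ℝ[X]
  r : ℕ
  H : ℝ
  a : ℝ
  κ : ℝ
  B : ℝ
  adm : ∀ d, Adm H r (p d)
  int : ∀ d, p d ∈ liftsRing (Int.castRingHom ℝ)
  hr : 0 < r
  hH : 0 ≤ H
  ha : 1 < a
  hκ : κ * (a - 1) = 1
  κ1 : 1 ≤ κ
  hB : 2 * H * κ ≤ B
  B1 : 1 ≤ B

namespace Sys

variable {D : Type} (s : Sys D) {N m n k : ℕ} {F G : ℝ[X] → ℝ} {x θ : ℝ}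

/-- weight of a word -/
noncomputable def w (g : Fin N → D) : ℝ := ∏ i, |s.c (g i)|

/-- polynomial of a word -/
noncomputable def pl (g : Fin N → D) : ℝ[X] := ∑ i : Fin N, X ^ (s.r * i) * s.p (g i)

/-- the polynomials that occur -/
def Ok (N : ℕ) (P : ℝ[X]) : Prop :=
  Adm (2 * s.H) (s.r * N) P ∧ P ∈ liftsRing (Int.castRingHom ℝ)

theorem w_nonneg (g : Fin N → D) : 0 ≤ s.w g := prod_nonneg fun _ _ => abs_nonneg _

theorem P_adm : ∀ (N) (g : Fin N → D), Adm s.H (s.r * N) (s.pl g) := by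
  intro N
  induction N with
  | zero => exact fun g => ⟨fun i => by simp [pl, s.hH], fun i _ => by simp [pl]⟩
  | succ N ih =>
    intro g
    rw [pl, Fin.sum_univ_castSucc]
    exact (ih fun i => g i.castSucc).app (s.adm _)

theorem ok (g g' : Fin N → D) : s.Ok N (s.pl g - s.pl g') := by
  have : ∀ g : Fin N → D, s.pl g ∈ liftsRing (Int.castRingHom ℝ) := fun g =>
    sum_mem fun i _ => mul_mem ((lifts_iff_liftsRing _ _).1 (X_pow_mem_lifts _ _)) (s.int _)
  exact ⟨(s.P_adm N g).sub (s.P_adm N g'), sub_mem (this g) (this g')⟩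

theorem κ0 : 0 < s.κ := by linarith [s.κ1]

theorem B0 : 0 < s.B := by linarith [s.B1]

theorem Bκ1 (l : ℕ) : 1 ≤ s.B * s.κ ^ l := one_le_mul_of_one_le_of_one_le s.B1 (one_le_pow₀ s.κ1)

variable [Fintype D]

/-- weighted sum over pairs of words -/
noncomputable def E (N : ℕ) (F : ℝ[X] → ℝ) : ℝ :=
  ∑ g : Fin N → D, ∑ g' : Fin N → D, s.w g * s.w g' * F (s.pl g - s.pl g')

/-- total weight of pairs of blocks -/
noncomputable def A : ℝ := (∑ d, |s.c d|) ^ 2

/-- weight of the diagonal pairs of blocks -/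
noncomputable def m₀ : ℝ := ∑ d, ∑ d', |s.c d| * |s.c d'| * ind (s.p d = s.p d')

/-- weighted number of differences with an almost root of order `k` at `x` -/
noncomputable def W (k N : ℕ) (x : ℝ) : ℝ := s.E N fun P => ind (Near s.κ s.B k P x)

theorem E_mono (h : ∀ P, s.Ok N P → F P ≤ G P) : s.E N F ≤ s.E N G :=
  sum_le_sum fun g _ => sum_le_sum fun g' _ => mul_le_mul_of_nonneg_left (h _ (s.ok g g'))
    (mul_nonneg (s.w_nonneg g) (s.w_nonneg g'))

theorem E_mul (y : ℝ) : s.E N (fun P => y * F P) = y * s.E N F := by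
  simp only [E, mul_sum]
  exact sum_congr rfl fun _ _ => sum_congr rfl fun _ _ => by ring

theorem E_add : s.E N (fun P => F P + G P) = s.E N F + s.E N G := by
  simp only [E, mul_add, sum_add_distrib]

theorem E_const (y : ℝ) : s.E N (fun _ => y) = s.A ^ N * y := by
  have : ∑ g : Fin N → D, s.w g = (∑ d, |s.c d|) ^ N := by
    rw [Finset.sum_pow', Fintype.piFinset_univ]; rfl
  simp only [E, ← sum_mul, ← mul_sum, this, A]
  ring

theorem A0 : 0 ≤ s.A := sq_nonneg _

theorem E_nonneg (h : ∀ P, 0 ≤ F P) : 0 ≤ s.E N F := by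
  simpa [E_const] using s.E_mono (N := N) (F := fun _ => 0) fun P _ => h P

theorem W0 : 0 ≤ s.W k N x := s.E_nonneg fun _ => ind_nonneg

theorem W_le : s.W k N x ≤ s.A ^ N := by
  simpa [E_const, W] using s.E_mono (N := N) (G := fun _ => 1) fun P _ =>
    ind_le_one (q := Near s.κ s.B k P x)

theorem E_split (m n : ℕ) : s.E (m + n) F =
    s.E n fun Q => s.E m fun P => F (P + X ^ (s.r * m) * Q) := by
  have hw : ∀ (g : Fin m → D) (h : Fin n → D), s.w (Fin.appendEquiv m n (g, h)) = s.w g * s.w h := by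
    intro g h; simp [w, Fin.prod_univ_add]
  have hP : ∀ (g : Fin m → D) (h : Fin n → D),
      s.pl (Fin.appendEquiv m n (g, h)) = s.pl g + X ^ (s.r * m) * s.pl h := by
    intro g h; simp [pl, Fin.sum_univ_add, mul_sum, mul_add, pow_add, mul_assoc]
  simp only [E, ← (Fin.appendEquiv m n).sum_comp, Fintype.sum_prod_type_right, mul_sum, hw, hP]
  refine sum_congr rfl fun h _ => ?_
  rw [sum_comm]
  refine sum_congr rfl fun h' _ => sum_congr rfl fun g _ => sum_congr rfl fun g' _ => ?_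
  rw [show s.pl g + X ^ (s.r * m) * s.pl h - (s.pl g' + X ^ (s.r * m) * s.pl h') =
    s.pl g - s.pl g' + X ^ (s.r * m) * (s.pl h - s.pl h') by ring]
  ring

theorem E_offset (R : ℕ) (O : ℝ[X]) :
    s.E N (fun P => ind (Near s.κ (R * s.B) k (P + O) x)) ≤ (2 * R + 3) ^ k * s.W k N x := by
  have h := offset s.w s.w_nonneg (fun (g : Fin N → D) (l : Fin k) =>
    jt l (s.pl g) x / (s.B * s.κ ^ (l : ℕ))) (fun l => jt l O x / (s.B * s.κ ^ (l : ℕ))) R
  have h0 : ∀ l : ℕ, 0 < s.B * s.κ ^ l := fun l => by linarith [s.Bκ1 l]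
  simp only [← sub_div, ← add_div, abs_div, abs_of_pos (h0 _), div_le_iff₀ (h0 _), ← jt_sub,
    ← jt_add, one_mul, ← mul_assoc] at h
  simpa only [W, E, Near, Fin.forall_iff] using h

/-- splitting off the low blocks -/
theorem E_le_split {q : ℝ[X] → Prop} {G : ℝ[X] → ℝ} (R : ℕ) (hG : ∀ Q, 0 ≤ G Q)
    (h : ∀ P Q, s.Ok m P → q (P + X ^ (s.r * m) * Q) →
      Near s.κ (R * s.B) k (P + X ^ (s.r * m) * Q) x ∧ 1 ≤ G Q) :
    s.E (m + n) (fun P => ind (q P)) ≤ (2 * R + 3) ^ k * s.W k m x * s.E n G := by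
  rw [E_split, ← E_mul]
  refine s.E_mono fun Q _ => le_trans ?_
    (mul_le_mul_of_nonneg_right (s.E_offset R (X ^ (s.r * m) * Q)) (hG Q))
  rw [mul_comm _ (G Q), ← E_mul]
  refine s.E_mono fun P hP => ind_le (mul_nonneg (hG Q) ind_nonneg) fun hq => ?_
  rw [ind_pos (h P Q hP hq).1, mul_one]
  exact (h P Q hP hq).2

theorem W_add (hx : s.a ≤ x) : s.W k (m + n) x ≤ 5 ^ k * s.W k m x * s.W k n x := by
  have := s.E_le_split (m := m) (n := n) (k := k) (x := x) (q := fun P => Near s.κ s.B k P x)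
    (G := fun P => ind (Near s.κ s.B k P x)) 1 (fun _ => ind_nonneg) fun P Q hP h =>
      ⟨by simpa using h, (ind_pos (up s.ha s.hκ hx s.hB _ P 0 hP.1 le_rfl h).1).ge⟩
  norm_num at this
  exact this

/-- the count is below `θ ^ L` at some scale -/
def Good (k : ℕ) (θ x : ℝ) : Prop := ∃ L ≠ 0, 5 ^ k * s.W k L x ≤ θ ^ L

theorem Good.mono {θ' : ℝ} (h : s.Good k θ x) (h0 : 0 ≤ θ) (h1 : θ ≤ θ') : s.Good k θ' x :=
  let ⟨L, hL, h2⟩ := h
  ⟨L, hL, h2.trans (pow_le_pow_left₀ h0 h1 L)⟩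

theorem isClosed_near (κ B : ℝ) (k : ℕ) (P : ℝ[X]) : IsClosed {x | Near κ B k P x} := by
  simp only [Near, Set.ofPred_forall]
  exact isClosed_iInter fun l => isClosed_iInter fun _ =>
    isClosed_le (continuous_jt l P).abs continuous_const

theorem W_usc (k L : ℕ) (x : ℝ) : ∀ᶠ y in 𝓝 x, s.W k L y ≤ s.W k L x := by
  have : ∀ g g' : Fin L → D, ∀ᶠ y in 𝓝 x, ind (Near s.κ s.B k (s.pl g - s.pl g') y) ≤
      ind (Near s.κ s.B k (s.pl g - s.pl g') x) := by
    intro g g'
    by_cases h : Near s.κ s.B k (s.pl g - s.pl g') x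
    · exact .of_forall fun y => ind_mono fun _ => h
    · filter_upwards [(isClosed_near s.κ s.B k _).isOpen_compl.mem_nhds h] with y hy
      exact ind_mono fun h' => absurd h' hy
  filter_upwards [eventually_all.2 fun g => eventually_all.2 (this g)] with y hy
  exact sum_le_sum fun g _ => sum_le_sum fun g' _ => mul_le_mul_of_nonneg_left (hy g g')
    (mul_nonneg (s.w_nonneg g) (s.w_nonneg g'))

theorem Good.unif (h : s.Good k θ x) (h0 : 0 < θ) (hx : s.a < x) :
    ∃ C, 0 ≤ C ∧ ∀ᶠ y in 𝓝 x, ∀ N, s.W k N y ≤ C * θ ^ N := by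
  obtain ⟨L, hL, h⟩ := h
  have h1 : ∀ i, 0 ≤ (s.A / θ) ^ i := fun i => pow_nonneg (div_nonneg s.A0 h0.le) i
  refine ⟨∑ i ∈ range L, (s.A / θ) ^ i, sum_nonneg fun i _ => h1 i, ?_⟩
  filter_upwards [s.W_usc k L x, lt_mem_nhds hx] with y hy hy' N
  induction N using Nat.strong_induction_on with
  | _ N ih =>
    rcases lt_or_ge N L with h2 | h2
    · refine s.W_le.trans (le_trans (le_of_eq ?_) (mul_le_mul_of_nonneg_right
        (single_le_sum (fun i _ => h1 i) (mem_range.2 h2)) (by positivity)))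
      rw [div_pow, div_mul_cancel₀ _ (by positivity)]
    · obtain ⟨n, rfl⟩ := Nat.exists_eq_add_of_le h2
      refine (s.W_add hy'.le).trans (le_trans (mul_le_mul (le_trans ?_ h) (ih n (by omega)) s.W0
        (by positivity)) (le_of_eq (by ring)))
      gcongr

theorem good_of_le {C μ : ℝ} (h0 : 0 ≤ μ) (h1 : μ < θ) (n₀ : ℕ)
    (h : ∀ n, s.W k (n₀ + n) x ≤ C * μ ^ n) : s.Good k θ x := by
  have hθ : 0 < θ := h0.trans_lt h1
  have h2 := (tendsto_pow_atTop_nhds_zero_of_lt_one (div_nonneg h0 hθ.le)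
    ((div_lt_one hθ).2 h1)).const_mul (5 ^ k * C)
  rw [mul_zero] at h2
  obtain ⟨n, h3, h4⟩ := ((h2.eventually (gt_mem_nhds (pow_pos hθ n₀))).and
    (eventually_gt_atTop 0)).exists
  refine ⟨n₀ + n, by omega, ?_⟩
  rw [div_pow, ← mul_div_assoc, div_lt_iff₀ (by positivity), mul_assoc, ← pow_add] at h3
  exact (mul_le_mul_of_nonneg_left (h n) (by positivity)).trans h3.le

theorem good_A (h : s.A < θ) : s.Good k θ x :=
  s.good_of_le (C := 1) s.A0 h 0 fun n => by simpa using s.W_le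

theorem m₀0 : 0 ≤ s.m₀ :=
  sum_nonneg fun _ _ => sum_nonneg fun _ _ => mul_nonneg (by positivity) ind_nonneg

theorem E_diag (n : ℕ) : s.E n (fun P => ind (P = 0)) ≤ s.m₀ ^ n := by
  induction n with
  | zero => simpa [E_const] using s.E_mono (N := 0) (G := fun _ => 1) fun P _ => ind_le_one (q := P = 0)
  | succ n ih =>
    have h1 : s.E 1 (fun P => ind (P = 0)) = s.m₀ := by
      simp only [E, m₀, ← (Equiv.funUnique (Fin 1) D).symm.sum_comp, sub_eq_zero]
      simp [w, pl]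
    rw [E_split, pow_succ, ← congrArg (s.m₀ ^ n * ·) h1, ← E_mul]
    refine s.E_mono fun Q _ => le_trans ?_ (mul_le_mul_of_nonneg_right ih ind_nonneg)
    rw [mul_comm _ (ind _), ← E_mul]
    exact s.E_mono fun P hP => ind_le_mul fun h => (hP.1.eq_zero h).symm

/-- at a high order only the diagonal counts -/
theorem good_top (b : ℝ) : ∃ K, ∀ θ, s.m₀ < θ → ∀ x, s.a ≤ x → x ≤ b → s.Good (2 + K) θ x := by
  obtain ⟨K, hK⟩ := jensen s.ha (H := 2 * s.H) (by linarith [s.hH])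
  obtain ⟨d, hd⟩ := hK s.κ s.B b s.κ0.le s.B0.le
  refine ⟨K, fun θ h x h1 h2 => s.good_of_le (C := s.A ^ d) s.m₀0 h d fun n => ?_⟩
  refine le_trans ?_ (mul_le_mul_of_nonneg_left (s.E_diag n) (pow_nonneg s.A0 d))
  have h3 : s.W (2 + K) (d + n) x ≤
      s.E (d + n) fun P => ind (∀ i, s.r * d ≤ i → P.coeff i = 0) := by
    refine s.E_mono fun P hP => ind_mono fun h4 i hi => ?_
    by_cases h5 : P = 0
    · simp [h5]
    refine coeff_eq_zero_of_natDegree_lt (lt_of_lt_of_le (hd P x h1 h2 hP.1.1 ?_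
      fun l hl => h4 l (by omega)) (le_trans (Nat.le_mul_of_pos_left _ s.hr) hi))
    obtain ⟨z, hz⟩ := (lifts_iff_coeff_lifts _).1 ((lifts_iff_liftsRing _ _).2 hP.2) P.natDegree
    have h6 : (z : ℝ) = P.leadingCoeff := hz
    have h7 : z ≠ 0 := by rintro rfl; exact leadingCoeff_ne_zero.2 h5 (by simpa using h6.symm)
    rw [← h6]
    exact_mod_cast Int.one_le_abs h7
  refine h3.trans ?_
  rw [E_split, ← E_mul]
  refine s.E_mono fun Q _ => ?_
  rw [← E_const]
  refine s.E_mono fun P hP => ind_mono fun h4 => Polynomial.ext fun i => ?_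
  simpa [hP.1.2 (i + s.r * d) (by omega), coeff_X_pow_mul] using h4 (i + s.r * d) (by omega)

end Sys

end Pool.Agent.P.MP_0ff3a5_nt.Zn
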